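import Pool.Agent.N673.QC.MakC
import Pool.Agent.R449.MB.Mlc
import Pool.Agent.R240.Res3
import Pool.Agent.R240.Res4

/-! # The parameters that are not isolated, nonresonant and slim form a countable union of sets of
dimension less than one -/

set_option autoImplicit false

namespace Pool.Agent.N673.QC

open Complex Filter Topology Set Metric MeasureTheory
open N62a1eb23
open Pool.Agent.H712R2 (P fc)
open Pool.Agent.H713R2 (IsExteriorMap)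
open Pool.Agent.Y736.RN
open Pool.Agent.R240.Sparse Pool.Agent.R240.Res
open Pool.Agent.R240.Loc
open Pool.Agent.R240.Slim (circles_null cik_interior SlimAt exists_big)
open Pool.Agent.R449.MB
open Pool.Agent.W677.Mar (pt)

variable {d : ℕ} {ψ : ℂ → ℂ}

/-- countable unions of sets of dimension less than one -/
def Thin (A : Set ℂ) : Prop := ∃ E : ℕ → Set ℂ, (∀ n, dimH (E n) < 1) ∧ A ⊆ ⋃ n, E n

theorem Thin.mono {A B : Set ℂ} (h : Thin B) (hAB : A ⊆ B) : Thin A := by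
  obtain ⟨E, h1, h2⟩ := h
  exact ⟨E, h1, hAB.trans h2⟩

theorem thin_of_dim {A : Set ℂ} (h : dimH A < 1) : Thin A :=
  ⟨fun _ => A, fun _ => h, fun x hx => mem_iUnion.2 ⟨0, hx⟩⟩

theorem thin_iUnion {ι : Type*} [Countable ι] {A : ι → Set ℂ} (h : ∀ i, Thin (A i)) :
    Thin (⋃ i, A i) := by
  rcases isEmpty_or_nonempty ι with hι | hι
  · exact (thin_of_dim (A := ∅) (by simp)).mono (by simp)
  choose E h1 h2 using h
  obtain ⟨e, he⟩ := exists_surjective_nat (ι × ℕ)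
  refine ⟨fun n => E (e n).1 (e n).2, fun n => h1 _ _, ?_⟩
  intro x hx
  obtain ⟨i, hi⟩ := mem_iUnion.1 hx
  obtain ⟨k, hk⟩ := mem_iUnion.1 (h2 i hi)
  obtain ⟨n, hn⟩ := he (i, k)
  refine mem_iUnion.2 ⟨n, ?_⟩
  rw [hn]
  exact hk

theorem Thin.union {A B : Set ℂ} (hA : Thin A) (hB : Thin B) : Thin (A ∪ B) := by
  have h1 : Thin (⋃ b : Bool, cond b A B) := thin_iUnion fun b => by cases b <;> assumption
  refine h1.mono ?_
  rintro x (hx | hx)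
  · exact mem_iUnion.2 ⟨true, hx⟩
  · exact mem_iUnion.2 ⟨false, hx⟩

/-- almost every circle misses a thin set -/
theorem Thin.circles {A : Set ℂ} (h : Thin A) (p : ℂ) : ∀ᵐ s : ℝ, ∀ c, dist c p = s → c ∉ A := by
  obtain ⟨E, h1, h2⟩ := h
  have h3 : ∀ n, ∀ᵐ s : ℝ, s ∉ (fun z => dist z p) '' E n := fun n =>
    measure_eq_zero_iff_ae_notMem.1 (circles_null (h1 n) p)
  filter_upwards [ae_all_iff.2 h3] with s hs c hc hcA
  obtain ⟨n, hn⟩ := mem_iUnion.1 (h2 hcA)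
  exact hs n ⟨c, hn, hc⟩

/-- univalent functions do not see thin sets -/
theorem Thin.univalent {A : Set ℂ} (h : Thin A) {φ : ℂ → ℂ}
    (hφ : DifferentiableOn ℂ φ (ball 0 1)) (hinj : InjOn φ (ball 0 1)) :
    ∀ᵐ θ : ℝ, ∃ p : ℂ, p ∉ A ∧ Tendsto (fun r : ℝ => φ (pt r θ)) (𝓝[<] 1) (𝓝 p) := by
  obtain ⟨E, h1, h2⟩ := h
  have h3 : ∀ n, ∀ᵐ θ : ℝ, ∃ p : ℂ, p ∉ E n ∧
      Tendsto (fun r : ℝ => φ (pt r θ)) (𝓝[<] 1) (𝓝 p) := fun n =>
    Pool.Agent.N673.Mak.makarov hφ hinj (h1 n)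
  filter_upwards [ae_all_iff.2 h3] with θ hθ
  obtain ⟨p, hp, hp2⟩ := hθ 0
  refine ⟨p, fun hpA => ?_, hp2⟩
  obtain ⟨n, hn⟩ := mem_iUnion.1 (h2 hpA)
  obtain ⟨q, hq, hq2⟩ := hθ n
  rw [tendsto_nhds_unique hp2 hq2] at hn
  exact hq hn

theorem thin_nice (hd : 2 ≤ d) : Thin {c | c ∈ multibrotSet d ∧ ¬ Nice d c} := by
  have h1 : Thin (⋃ x : {x : ℕ × ℚ // 1 ≤ x.1 ∧ 0 < (x.2 : ℝ) ∧ (x.2 : ℝ) < x.1},
      {c | RenC d c x.1.1 ∧ ¬ (FewAt d x.1.2 c ∧ MomAt d x.1.2 c)}) := by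
    refine thin_iUnion fun x => thin_of_dim ?_
    obtain ⟨⟨p, q⟩, hp, hq0, hq⟩ := x
    simp only at hp hq0 hq ⊢
    have hp0 : (0 : ℝ) < p := by exact_mod_cast hp
    have h3 : {c | RenC d c p ∧ ¬ (FewAt d q c ∧ MomAt d q c)} ⊆
        {c | RenC d c p ∧ ¬ FewAt d q c} ∪ {c | RenC d c p ∧ ¬ MomAt d q c} := by
      rintro c ⟨h4, h5⟩
      by_cases h6 : FewAt d q c
      · exact Or.inr ⟨h4, fun h7 => h5 ⟨h6, h7⟩⟩
      · exact Or.inl ⟨h4, h6⟩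
    refine (dimH_mono h3).trans_lt ?_
    rw [dimH_union]
    refine (max_le (dim_few hd hp hq0) (dim_mom hd hp hq0)).trans_lt ?_
    rw [← ENNReal.ofReal_one, ENNReal.ofReal_lt_ofReal_iff one_pos, div_lt_one hp0]
    exact hq
  refine h1.mono ?_
  rintro c ⟨hcM, hc⟩
  by_contra hcon
  apply hc
  intro p hp hr κ hκ0 hκ
  obtain ⟨q, hq1, hq2⟩ := exists_rat_btwn hκ
  have hr' : RenC d c p := by
    rcases hr with rfl | hr
    · exact renC_one hd hcM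
    · exact hr
  have h4 : FewAt d q c ∧ MomAt d q c := by
    by_contra hcon2
    exact hcon (mem_iUnion.2 ⟨⟨(p, q), hp, hκ0.trans hq1, hq2⟩, hr', hcon2⟩)
  exact ⟨h4.1.mono hq1.le, mom_of hd h4.2.1 hκ0 hq1 h4.1⟩

theorem thin_nonres (hd : 2 ≤ d) : Thin {c | c ∈ multibrotSet d ∧ ¬ Nonres d c} := by
  have hdR : (1 : ℝ) < d := by exact_mod_cast (by omega : 1 < d)
  have hlogd : 0 < Real.log d := Real.log_pos hdR
  have h1 : Thin (⋃ x : {x : ℕ × ℚ // 1 ≤ x.1 ∧ Real.log d / x.1 < (x.2 : ℝ)},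
      {c | RenC d c x.1.1 ∧ Near d x.1.2 c}) := by
    refine thin_iUnion fun x => thin_of_dim ?_
    obtain ⟨⟨p, q⟩, hp, hq⟩ := x
    simp only at hp hq ⊢
    have hp0 : (0 : ℝ) < p := by exact_mod_cast hp
    have hq0 : (0 : ℝ) < q := lt_trans (by positivity) hq
    refine (dim_near' hd hp hq0).trans_lt ?_
    rw [← ENNReal.ofReal_one, ENNReal.ofReal_lt_ofReal_iff one_pos, div_lt_one (by positivity)]
    rwa [div_lt_iff₀ hp0, mul_comm] at hq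
  refine h1.mono ?_
  rintro c ⟨hcM, hc⟩
  by_contra hcon
  apply hc
  intro p hp hr X hX
  have hp0 : (0 : ℝ) < p := by exact_mod_cast hp
  have hX0 : 0 < X := lt_trans (by positivity) hX
  apply far_of_not_near hd hcM hX0.le
  intro hcon2
  obtain ⟨q, hq1, hq2⟩ := exists_rat_btwn hX
  have hr' : RenC d c p := by
    rcases hr with rfl | hr
    · exact renC_one hd hcM
    · exact hr
  exact hcon (mem_iUnion.2 ⟨⟨(p, q), hp, hq1⟩, hr', hcon2.mono hq2.le⟩)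

theorem thin_slim (hd : 2 ≤ d) (hψ : IsExteriorMap (multibrotSet d) ψ) :
    Thin {c | c ∈ multibrotSet d ∧ ¬ SlimAt d ψ c} := by
  have h1 : Thin (⋃ x : {x : ℕ × ℚ // 1 ≤ x.1 ∧ 0 < x.2 ∧ (x.2 : ℝ) < x.1},
      {c | Ren d c x.1.1 ∧ Big ψ x.1.2 c}) := by
    refine thin_iUnion fun x => thin_of_dim ?_
    obtain ⟨⟨p, q⟩, hp, hq0, hq⟩ := x
    simp only at hp hq0 hq ⊢
    have hpR : (0 : ℝ) < p := by exact_mod_cast hp
    refine (dim_big hd hp hψ (by exact_mod_cast hq0)).trans_lt ?_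
    rw [← ENNReal.ofReal_one, ENNReal.ofReal_lt_ofReal_iff one_pos, div_lt_one hpR]
    exact hq
  refine h1.mono ?_
  rintro c ⟨hcM, hc⟩
  obtain ⟨p, hp, hr, κ, hκ0, hκ, hB⟩ := exists_big hd hψ hcM hc
  obtain ⟨q, hq1, hq2⟩ := exists_rat_btwn hκ
  have hq0 : (0 : ℝ) < q := hκ0.trans hq1
  exact mem_iUnion.2 ⟨⟨(p, q), hp, by exact_mod_cast hq0, hq2⟩, hr, hB.mono hq1.le⟩

/-- isolated, nonresonant and slim -/
def GoodP (d : ℕ) (ψ : ℂ → ℂ) (c : ℂ) : Prop := Nice d c ∧ Nonres d c ∧ SlimAt d ψ c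

theorem thin_bad (hd : 2 ≤ d) (hψ : IsExteriorMap (multibrotSet d) ψ) :
    Thin {c | c ∈ multibrotSet d ∧ ¬ GoodP d ψ c} := by
  refine (((thin_nice hd).union (thin_nonres hd)).union (thin_slim hd hψ)).mono ?_
  rintro c ⟨hcM, hc⟩
  unfold GoodP at hc
  by_cases h1 : Nice d c
  · by_cases h2 : Nonres d c
    · exact Or.inr ⟨hcM, fun h3 => hc ⟨h1, h2, h3⟩⟩
    · exact Or.inl (Or.inr ⟨hcM, h2⟩)
  · exact Or.inl (Or.inl ⟨hcM, h1⟩)

end Pool.Agent.N673.QC
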