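import Pool.Agent.N673.QC.Comp
import Pool.Agent.N673.QC.Thin
import Pool.Agent.H713R2.AR.T1

/-! # Boundaries of the components of the interior of the Multibrot sets -/

set_option autoImplicit false

namespace Pool.Agent.N673.QC

open Complex Filter Topology Set Metric MeasureTheory
open N62a1eb23
open Pool.Agent.H712R2 (P fc P_zero P_succ isCompact_multibrot)
open Pool.Agent.H713R2 (IsExteriorMap)

variable {d : ℕ} {ψ : ℂ → ℂ}

/-- a connected component of the interior of the Multibrot set -/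
def IsComp (d : ℕ) (V : Set ℂ) : Prop :=
  ∃ c ∈ interior (multibrotSet d), V = connectedComponentIn (interior (multibrotSet d)) c

theorem IsComp.isOpen {V : Set ℂ} (h : IsComp d V) : IsOpen V := by
  obtain ⟨c, _, rfl⟩ := h
  exact isOpen_interior.connectedComponentIn

theorem IsComp.isPreconnected {V : Set ℂ} (h : IsComp d V) : IsPreconnected V := by
  obtain ⟨c, _, rfl⟩ := h
  exact isPreconnected_connectedComponentIn

theorem IsComp.sub_interior {V : Set ℂ} (h : IsComp d V) : V ⊆ interior (multibrotSet d) := by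
  obtain ⟨c, _, rfl⟩ := h
  exact connectedComponentIn_subset _ _

theorem IsComp.sub {V : Set ℂ} (h : IsComp d V) : V ⊆ multibrotSet d :=
  h.sub_interior.trans interior_subset

theorem IsComp.nonempty {V : Set ℂ} (h : IsComp d V) : V.Nonempty := by
  obtain ⟨c, hc, rfl⟩ := h
  exact ⟨c, mem_connectedComponentIn hc⟩

/-- a connected subset of the interior which meets the component lies in it -/
theorem IsComp.maximal {V U : Set ℂ} (h : IsComp d V) (hU : IsPreconnected U)
    (hUM : U ⊆ interior (multibrotSet d)) (hne : (U ∩ V).Nonempty) : U ⊆ V := by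
  obtain ⟨c, hc, rfl⟩ := h
  obtain ⟨x, hxU, hxV⟩ := hne
  rw [connectedComponentIn_eq hxV]
  exact hU.subset_connectedComponentIn hxU hUM

theorem meets_frontier {S A : Set ℂ} (hS : IsPreconnected S) (h1 : (S ∩ A).Nonempty)
    (h2 : (S ∩ Aᶜ).Nonempty) : (S ∩ frontier A).Nonempty := by
  by_contra h
  rw [not_nonempty_iff_eq_empty] at h
  have hno : ∀ x ∈ S, x ∈ closure A → x ∈ interior A := by
    intro x hx hxc
    by_contra h3
    have : x ∈ S ∩ frontier A := ⟨hx, hxc, h3⟩
    rw [h] at this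
    exact this
  have hsub : S ⊆ interior A ∪ (closure A)ᶜ := by
    intro x hx
    by_cases h3 : x ∈ closure A
    · exact Or.inl (hno x hx h3)
    · exact Or.inr h3
  obtain ⟨x, hx, hxA⟩ := h1
  obtain ⟨y, hy, hyA⟩ := h2
  obtain ⟨w, _, hw1, hw2⟩ := hS (interior A) (closure A)ᶜ isOpen_interior
    isClosed_closure.isOpen_compl hsub ⟨x, hx, hno x hx (subset_closure hxA)⟩
    ⟨y, hy, fun h3 => hyA (interior_subset (hno y hy h3))⟩
  exact hw2 (subset_closure (interior_subset hw1))

/-- discs bounded by circles in the Multibrot set are contained in it -/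
theorem disc_sub (hd : 2 ≤ d) {p : ℂ} {s : ℝ} (h : sphere p s ⊆ multibrotSet d) :
    closedBall p s ⊆ multibrotSet d := by
  intro c hc
  rcases eq_or_ne s 0 with rfl | hs
  · apply h
    rw [closedBall_zero] at hc
    rw [hc]
    exact mem_sphere_iff_norm.2 (by simp)
  rw [Pool.Agent.H712R2.mem_multibrot_iff hd]
  intro k
  have hdc : DiffContOnCl ℂ (fun c => P d k c) (ball p s) := by
    have h1 : (fun c => P d k c) = fun c => (PP d k).eval c := by
      funext c; rw [eval_PP]
    rw [h1]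
    exact (PP d k).differentiable.diffContOnCl
  refine Complex.norm_le_of_forall_mem_frontier_norm_le isBounded_ball hdc (C := 2)
    (fun z hz => ?_) ?_
  · rw [frontier_ball p hs] at hz
    exact norm_P_le hd (h hz) k
  · rw [closure_ball p hs]; exact hc

theorem IsComp.frontier_sub (hd : 2 ≤ d) {V : Set ℂ} (h : IsComp d V) :
    frontier V ⊆ frontier (multibrotSet d) := by
  intro p hp
  have hcl : IsClosed (multibrotSet d) := (isCompact_multibrot hd).isClosed
  have hpM : p ∈ closure (multibrotSet d) := closure_mono h.sub hp.1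
  refine ⟨hpM, fun hpi => ?_⟩
  have h1 : p ∉ V := by
    have := hp.2
    rwa [h.isOpen.interior_eq] at this
  apply h1
  obtain ⟨r, hr, hr2⟩ := Metric.isOpen_iff.1 isOpen_interior p hpi
  obtain ⟨v, hv, hvr⟩ := Metric.mem_closure_iff.1 hp.1 r hr
  refine h.maximal (convex_ball p r).isPreconnected hr2 ⟨v, ?_, hv⟩ (mem_ball_self hr)
  rw [mem_ball']
  exact hvr

/-- small circles about a boundary point meet the boundary -/
theorem IsComp.circle (hd : 2 ≤ d) {V : Set ℂ} (h : IsComp d V) {p : ℂ} (hp : p ∈ frontier V) :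
    ∃ ε : ℝ, 0 < ε ∧ ∀ s : ℝ, 0 < s → s < ε → ∃ c ∈ frontier V, dist c p = s := by
  have hpV : p ∉ V := by
    have := hp.2
    rwa [h.isOpen.interior_eq] at this
  obtain ⟨v, hv⟩ := h.nonempty
  have hvp : v ≠ p := fun h0 => hpV (h0 ▸ hv)
  refine ⟨dist v p, dist_pos.2 hvp, fun s hs0 hs => ?_⟩
  by_contra hcon
  push Not at hcon
  have hsp : IsPreconnected (sphere p s) :=
    isPreconnected_sphere (by rw [Complex.rank_real_complex]; exact_mod_cast one_lt_two) p s
  have hne : (sphere p s).Nonempty := NormedSpace.sphere_nonempty.2 hs0.le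
  have hdis : sphere p s ∩ frontier V = ∅ := by
    ext c
    simp only [mem_inter_iff, mem_sphere, mem_empty_iff_false, iff_false, not_and]
    intro h1 h2
    exact hcon c h2 h1
  by_cases hm : (sphere p s ∩ V).Nonempty
  · have hsub : sphere p s ⊆ V := by
      by_contra hn
      obtain ⟨x, hx, hxV⟩ := not_subset.1 hn
      obtain ⟨y, hy⟩ := meets_frontier hsp hm ⟨x, hx, hxV⟩
      rw [hdis] at hy
      exact hy
    have h1 : closedBall p s ⊆ multibrotSet d := disc_sub hd (hsub.trans h.sub)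
    have h2 : closedBall p s ⊆ interior (multibrotSet d) := by
      intro x hx
      rcases (mem_closedBall.1 hx).lt_or_eq with h3 | h3
      · exact mem_interior.2 ⟨ball p s, ball_subset_closedBall.trans h1, isOpen_ball, h3⟩
      · exact h.sub_interior (hsub h3)
    obtain ⟨x, hx⟩ := hne
    exact hpV (h.maximal (convex_closedBall p s).isPreconnected h2
      ⟨x, sphere_subset_closedBall hx, hsub hx⟩ (mem_closedBall_self hs0.le))
  · -- then `V` lies inside the circle
    obtain ⟨w, hw, hwp⟩ := Metric.mem_closure_iff.1 hp.1 s hs0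
    have hmv : (V ∩ ball p s).Nonempty := ⟨w, hw, by rw [mem_ball']; exact hwp⟩
    have hvn : (V ∩ (ball p s)ᶜ).Nonempty := ⟨v, hv, by rw [mem_compl_iff, mem_ball]; linarith⟩
    obtain ⟨y, hyV, hy⟩ := meets_frontier h.isPreconnected hmv hvn
    rw [frontier_ball p hs0.ne'] at hy
    exact hm ⟨y, hy, hyV⟩

theorem IsComp.frontier_nonempty (hd : 2 ≤ d) {V : Set ℂ} (h : IsComp d V) :
    (frontier V).Nonempty := by
  rw [nonempty_frontier_iff]
  refine ⟨h.nonempty, fun h0 => ?_⟩
  have h1 : (3 : ℂ) ∈ multibrotSet d := h.sub (h0 ▸ mem_univ _)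
  have h2 := norm_P_le hd h1 1
  rw [Pool.Agent.H712R2.P_one hd] at h2
  norm_num at h2

/-- almost every small circle about a boundary point meets the boundary, and only in good
parameters -/
theorem IsComp.good_circles (hd : 2 ≤ d) (hψ : IsExteriorMap (multibrotSet d) ψ) {V : Set ℂ}
    (h : IsComp d V) {p : ℂ} (hp : p ∈ frontier V) :
    ∃ ε : ℝ, 0 < ε ∧ ∀ᵐ s : ℝ, 0 < s → s < ε → (∃ c ∈ frontier V, dist c p = s) ∧
      ∀ c ∈ frontier V, dist c p = s → GoodP d ψ c := by
  obtain ⟨ε, hε, h1⟩ := h.circle hd hp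
  refine ⟨ε, hε, ?_⟩
  filter_upwards [(thin_bad hd hψ).circles p] with s hs hs0 hsε
  refine ⟨h1 s hs0 hsε, fun c hc hcs => ?_⟩
  have hcM : c ∈ multibrotSet d :=
    (isCompact_multibrot hd).isClosed.frontier_subset (h.frontier_sub hd hc)
  by_contra hcon
  exact hs c hcs ⟨hcM, hcon⟩

theorem IsComp.exists_good (hd : 2 ≤ d) (hψ : IsExteriorMap (multibrotSet d) ψ) {V : Set ℂ}
    (h : IsComp d V) : ∃ c ∈ frontier V, GoodP d ψ c := by
  obtain ⟨p, hp⟩ := h.frontier_nonempty hd
  obtain ⟨ε, hε, h1⟩ := h.good_circles hd hψ hp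
  by_contra hcon
  push Not at hcon
  have h2 : volume (Ioo 0 ε) = 0 := by
    apply measure_mono_null _ h1
    intro s hs h3
    obtain ⟨⟨c, hc, hcs⟩, h5⟩ := h3 hs.1 hs.2
    exact hcon c hc (h5 c hc hcs)
  rw [Real.volume_Ioo, ENNReal.ofReal_eq_zero] at h2
  linarith

/-- radial limits of a conformal map onto a component lie on its boundary -/
theorem limit_mem_frontier {V : Set ℂ} {φ : ℂ → ℂ} (hφ : DifferentiableOn ℂ φ (ball 0 1))
    (hinj : InjOn φ (ball 0 1)) (hV : IsOpen V) (him : φ '' ball 0 1 = V) {t : ℝ} {c : ℂ}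
    (hc : Tendsto (fun r : ℝ => φ (Pool.Agent.W677.Mar.pt r t)) (𝓝[<] 1) (𝓝 c)) :
    c ∈ frontier V := by
  have hev : ∀ᶠ r : ℝ in 𝓝[<] 1, Pool.Agent.W677.Mar.pt r t ∈ ball (0 : ℂ) 1 ∧
      ‖Pool.Agent.W677.Mar.pt r t‖ = r := by
    filter_upwards [Ioo_mem_nhdsLT (zero_lt_one' ℝ)] with r hr
    have := Pool.Agent.W677.Mar.norm_pt r t hr.1.le
    exact ⟨by rw [mem_ball_zero_iff, this]; exact hr.2, this⟩
  refine ⟨mem_closure_of_tendsto hc ?_, ?_⟩
  · filter_upwards [hev] with r hr
    rw [← him]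
    exact mem_image_of_mem _ hr.1
  · rw [hV.interior_eq, ← him]
    rintro ⟨z, hz, rfl⟩
    -- `φ` maps a small disc about `z` onto a neighbourhood of `φ z`
    have hz1 : ‖z‖ < 1 := mem_ball_zero_iff.1 hz
    set ρ : ℝ := (1 + ‖z‖) / 2 with hρ
    have hzρ : z ∈ ball (0 : ℂ) ρ := by rw [mem_ball_zero_iff, hρ]; linarith
    have hρ1 : ρ < 1 := by rw [hρ]; linarith
    have hsubρ : ball (0 : ℂ) ρ ⊆ ball 0 1 := ball_subset_ball hρ1.le
    have hopen : IsOpen (φ '' ball 0 ρ) := by
      have han : AnalyticOnNhd ℂ φ (ball 0 ρ) := (hφ.mono hsubρ).analyticOnNhd isOpen_ball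
      rcases han.is_constant_or_isOpen (convex_ball (0 : ℂ) ρ).isPreconnected with ⟨w, hw⟩ | h1
      · exfalso
        have hρ0 : 0 < ρ := by rw [hρ]; linarith [norm_nonneg z]
        have h0 : (0 : ℂ) ∈ ball (0 : ℂ) ρ := mem_ball_self hρ0
        have h1 : ((ρ / 2 : ℝ) : ℂ) ∈ ball (0 : ℂ) ρ := by
          rw [mem_ball_zero_iff, Complex.norm_real, Real.norm_eq_abs, abs_of_pos (by linarith)]
          linarith
        have h2 := hinj (hsubρ h0) (hsubρ h1) ((hw 0 h0).trans (hw _ h1).symm)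
        have h3 : (ρ / 2 : ℝ) = 0 := by exact_mod_cast h2.symm
        linarith
      · exact h1 _ subset_rfl isOpen_ball
    have h1 : ∀ᶠ r : ℝ in 𝓝[<] 1, φ (Pool.Agent.W677.Mar.pt r t) ∈ φ '' ball 0 ρ :=
      hc.eventually (hopen.mem_nhds (mem_image_of_mem _ hzρ))
    have h2 : ∀ᶠ r : ℝ in 𝓝[<] 1, ρ < r := by
      filter_upwards [Ioo_mem_nhdsLT hρ1] with r hr using hr.1
    obtain ⟨r, ⟨w, hw, hw2⟩, h4, h5, h6⟩ := (h1.and (h2.and hev)).exists
    have h7 := hinj (hsubρ hw) h5 hw2
    rw [← h7] at h6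
    rw [mem_ball_zero_iff, h6] at hw
    linarith

/-- density of hyperbolicity and boundaries of components -/
theorem dense_iff (hd : 2 ≤ d) (hψ : IsExteriorMap (multibrotSet d) ψ) :
    multibrotSet d ⊆ closure {c | ∃ m z, IsAttractingCycle (fun z => z ^ d + c) m z} ↔
      ∀ c ∈ frontier (multibrotSet d), GoodP d ψ c → ∀ V : Set ℂ, IsComp d V → c ∈ frontier V →
        ∃ c' ∈ V, ∃ m z, IsAttractingCycle (fun z => z ^ d + c') m z := by
  constructor
  · intro h c _ _ V hV _
    obtain ⟨v, hv⟩ := hV.nonempty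
    obtain ⟨c', h1, h2⟩ := mem_closure_iff.1 (h (hV.sub hv)) V hV.isOpen hv
    exact ⟨c', h1, h2⟩
  · intro h p hp
    by_contra hcon
    rw [Metric.mem_closure_iff] at hcon
    push Not at hcon
    obtain ⟨r, hr, h1⟩ := hcon
    have h2 : ∀ c' ∈ ball p r, ¬ ∃ m z, IsAttractingCycle (fun z => z ^ d + c') m z := by
      intro c' hc' h3
      have := h1 c' h3
      rw [mem_ball'] at hc'
      linarith
    have h3 : ball p r ⊆ multibrotSet d :=
      Pool.Agent.H713R2.AR.open_subset hd isOpen_ball (convex_ball p r).isPreconnected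
        (mem_ball_self hr) hp h2
    have hpi : p ∈ interior (multibrotSet d) :=
      mem_interior.2 ⟨_, h3, isOpen_ball, mem_ball_self hr⟩
    have hV : IsComp d (connectedComponentIn (interior (multibrotSet d)) p) := ⟨p, hpi, rfl⟩
    obtain ⟨c, hc, hg⟩ := hV.exists_good hd hψ
    obtain ⟨c', hc', m, z, hmz⟩ := h c (hV.frontier_sub hd hc) hg _ hV hc
    obtain ⟨w, hw⟩ := component hd hV.isOpen hV.isPreconnected hV.sub hc' hmz p
      (mem_connectedComponentIn hpi)
    exact h2 p (mem_ball_self hr) ⟨m, w, hw⟩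

end Pool.Agent.N673.QC
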