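import Pool.Agent.TH363.CD.Uniq
import Pool.Agent.H712R2.MultibrotConnected
import Pool.Agent.Helper114.MontelSol
import Pool.Agent.H749R2.Hyp1

/-! # Components of the interior of the Multibrot sets: all or no parameters have attracting cycles -/

set_option autoImplicit false

namespace Pool.Agent.N673.QC

open Complex Filter Topology Set Metric MeasureTheory
open N62a1eb23
open Pool.Agent.H712R2 (P fc P_zero P_succ)

variable {d : ℕ}

/-- the derivative of the iterate of `fc d c` -/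
def DD (d : ℕ) (m : ℕ) (c z : ℂ) : ℂ := ∏ i ∈ Finset.range m, (d : ℂ) * ((fc d c)^[i] z) ^ (d - 1)

theorem DD_succ (d m : ℕ) (c z : ℂ) :
    DD d (m + 1) c z = DD d m c z * ((d : ℂ) * ((fc d c)^[m] z) ^ (d - 1)) :=
  Finset.prod_range_succ _ _

theorem hasDerivAt_iter (d m : ℕ) (c z : ℂ) : HasDerivAt ((fc d c)^[m]) (DD d m c z) z := by
  induction m with
  | zero =>
    have : DD d 0 c z = 1 := by simp [DD]
    rw [this]
    exact hasDerivAt_id z
  | succ m ih =>
    rw [Function.iterate_succ', DD_succ, mul_comm]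
    have h1 : HasDerivAt (fc d c) ((d : ℂ) * ((fc d c)^[m] z) ^ (d - 1)) ((fc d c)^[m] z) :=
      (hasDerivAt_pow d _).add_const c
    exact h1.comp z ih

theorem cont_iter (d m : ℕ) : Continuous fun x : ℂ × ℂ => (fc d x.1)^[m] x.2 := by
  induction m with
  | zero => exact continuous_snd
  | succ m ih =>
    have h1 : (fun x : ℂ × ℂ => (fc d x.1)^[m + 1] x.2) =
        fun x : ℂ × ℂ => ((fc d x.1)^[m] x.2) ^ d + x.1 := by
      funext x
      rw [Function.iterate_succ_apply']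
      rfl
    rw [h1]
    exact (ih.pow d).add continuous_fst

theorem cont_DD (d m : ℕ) : Continuous fun x : ℂ × ℂ => DD d m x.1 x.2 := by
  unfold DD
  exact continuous_finsetProd _ fun i _ => continuous_const.mul ((cont_iter d i).pow _)

theorem diff_iter (d m : ℕ) {g : ℂ → ℂ} {V : Set ℂ} (hg : DifferentiableOn ℂ g V) :
    DifferentiableOn ℂ (fun c => (fc d c)^[m] (g c)) V := by
  induction m with
  | zero => exact hg
  | succ m ih =>
    have h1 : (fun c => (fc d c)^[m + 1] (g c)) = fun c => ((fc d c)^[m] (g c)) ^ d + c := by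
      funext x
      rw [Function.iterate_succ_apply']
      rfl
    rw [h1]
    exact (ih.pow d).add differentiableOn_id

theorem diff_DD (d m : ℕ) {g : ℂ → ℂ} {V : Set ℂ} (hg : DifferentiableOn ℂ g V) :
    DifferentiableOn ℂ (fun c => DD d m c (g c)) V := by
  induction m with
  | zero =>
    have : (fun c => DD d 0 c (g c)) = fun _ => 1 := by funext c; simp [DD]
    rw [this]
    exact differentiableOn_const 1
  | succ m ih =>
    have h1 : (fun c => DD d (m + 1) c (g c)) =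
        fun c => DD d m c (g c) * ((d : ℂ) * ((fc d c)^[m] (g c)) ^ (d - 1)) := by
      funext c; exact DD_succ d m c (g c)
    rw [h1]
    exact ih.mul ((differentiableOn_const _).mul ((diff_iter d m hg).pow _))

/-- the multiplier is the same at all points of the cycle -/
theorem DD_cycle (d : ℕ) {m : ℕ} (hm : 0 < m) {c z : ℂ} (h : (fc d c)^[m] z = z) (l : ℕ) :
    DD d m c ((fc d c)^[l] z) = DD d m c z := by
  induction l generalizing z with
  | zero => rfl
  | succ l ih =>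
    rw [Function.iterate_succ_apply]
    have h1 : (fc d c)^[m] (fc d c z) = fc d c z := by
      rw [← Function.iterate_succ_apply, Function.iterate_succ_apply', h]
    rw [ih h1]
    set g : ℕ → ℂ := fun i => (d : ℂ) * ((fc d c)^[i] z) ^ (d - 1) with hg
    have h2 : DD d m c (fc d c z) = ∏ i ∈ Finset.range m, g (i + 1) := by
      unfold DD
      refine Finset.prod_congr rfl fun i _ => ?_
      rw [hg]
      simp only
      rw [← Function.iterate_succ_apply]
    have h3 : DD d m c z = ∏ i ∈ Finset.range m, g i := rfl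
    rw [h2, h3]
    have h4 : g m = g 0 := by
      rw [hg]
      simp only
      rw [h]
      rfl
    have h5 := Finset.prod_range_succ g m
    rw [Finset.prod_range_succ', h4] at h5
    by_cases h6 : g 0 = 0
    · obtain ⟨k, rfl⟩ : ∃ k, m = k + 1 := ⟨m - 1, by omega⟩
      rw [Finset.prod_range_succ, h4, h6, mul_zero, Finset.prod_range_succ', h6, mul_zero]
    · exact mul_right_cancel₀ h6 h5

attribute [irreducible] DD

/-- attracting cycles persist -/
theorem persist {c₀ z₀ : ℂ} {m : ℕ} (h : IsAttractingCycle (fc d c₀) m z₀) :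
    ∀ᶠ c in 𝓝 c₀, ∃ z, IsAttractingCycle (fc d c) m z := by
  obtain ⟨hm, hper, -, hder⟩ := h
  have hper' : (fc d c₀)^[m] z₀ = z₀ := hper
  have hder' : ‖DD d m c₀ z₀‖ < 1 := by
    have := (hasDerivAt_iter d m c₀ z₀).deriv
    rw [← this]
    exact hder
  obtain ⟨q, hq1, hq2⟩ := exists_between hder'
  have hq0 : 0 ≤ q := (norm_nonneg _).trans hq1.le
  have h1 : ∀ᶠ x : ℂ × ℂ in 𝓝 (c₀, z₀), ‖DD d m x.1 x.2‖ < q := by
    have h0 := (cont_DD d m).norm.tendsto (c₀, z₀)
    exact h0.eventually_lt_const hq1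
  obtain ⟨r, hr, hr2⟩ := Metric.eventually_nhds_iff.1 h1
  have h2 : ∀ᶠ c in 𝓝 c₀, ‖(fc d c)^[m] z₀ - z₀‖ < (1 - q) * (r / 2) := by
    have hc : Continuous fun c : ℂ => ‖(fc d c)^[m] z₀ - z₀‖ :=
      (((cont_iter d m).comp (continuous_id.prodMk continuous_const)).sub continuous_const).norm
    have h0 := hc.tendsto c₀
    rw [hper', sub_self, norm_zero] at h0
    refine h0.eventually_lt_const ?_
    have : 0 < 1 - q := by linarith
    positivity
  filter_upwards [h2, ball_mem_nhds c₀ hr] with c hc hcr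
  have hsmall : ∀ z ∈ closedBall z₀ (r / 2), ‖DD d m c z‖ ≤ q := by
    intro z hz
    refine (hr2 (y := (c, z)) ?_).le
    rw [Prod.dist_eq]
    refine max_lt hcr ?_
    rw [mem_closedBall] at hz
    exact hz.trans_lt (by linarith)
  have hderiv : ∀ z, deriv ((fc d c)^[m]) z = DD d m c z := fun z => (hasDerivAt_iter d m c z).deriv
  have hdiff : Differentiable ℂ ((fc d c)^[m]) := fun z => (hasDerivAt_iter d m c z).differentiableAt
  have hmaps : MapsTo ((fc d c)^[m]) (closedBall z₀ (r / 2)) (closedBall z₀ (r / 2)) := by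
    intro z hz
    have h3 := (convex_closedBall z₀ (r / 2)).norm_image_sub_le_of_norm_deriv_le
      (f := (fc d c)^[m]) (C := q) (x := z₀) (y := z) (fun x _ => hdiff x)
      (fun x hx => by rw [hderiv]; exact hsmall x hx) (mem_closedBall_self (by linarith)) hz
    rw [mem_closedBall, dist_eq_norm] at hz ⊢
    calc ‖(fc d c)^[m] z - z₀‖ = ‖((fc d c)^[m] z - (fc d c)^[m] z₀) + ((fc d c)^[m] z₀ - z₀)‖ := by
          rw [sub_add_sub_cancel]
      _ ≤ ‖(fc d c)^[m] z - (fc d c)^[m] z₀‖ + ‖(fc d c)^[m] z₀ - z₀‖ := norm_add_le _ _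
      _ ≤ q * ‖z - z₀‖ + (1 - q) * (r / 2) := add_le_add h3 hc.le
      _ ≤ q * (r / 2) + (1 - q) * (r / 2) := by
          have := mul_le_mul_of_nonneg_left hz hq0
          linarith
      _ = r / 2 := by ring
  obtain ⟨z, _, h4, h5⟩ := Pool.Agent.H749R2.Hyp.fixed_of_contr (by linarith) hq0 hq2 hdiff hmaps
    (fun z hz => by rw [hderiv]; exact hsmall z hz)
  exact ⟨z, hm, h4, hdiff z, h5⟩

/-- the critical orbit as a polynomial of the parameter -/
noncomputable def PP (d : ℕ) : ℕ → Polynomial ℂ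
  | 0 => 0
  | k + 1 => PP d k ^ d + Polynomial.X

theorem eval_PP (d k : ℕ) (c : ℂ) : (PP d k).eval c = P d k c := by
  induction k with
  | zero => simp [PP, P_zero]
  | succ k ih => rw [PP, P_succ, Polynomial.eval_add, Polynomial.eval_pow, Polynomial.eval_X, ih]

/-- the critical orbit of the parameter `3` -/
def xx (d : ℕ) : ℕ → ℕ
  | 0 => 0
  | k + 1 => xx d k ^ d + 3

theorem xx_strictMono (hd : 2 ≤ d) : StrictMono (xx d) := by
  apply strictMono_nat_of_lt_succ
  intro k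
  have := Nat.le_self_pow (by omega : d ≠ 0) (xx d k)
  rw [xx]
  omega

theorem P_three (d k : ℕ) : P d k 3 = (xx d k : ℂ) := by
  induction k with
  | zero => simp [xx, P_zero]
  | succ k ih => rw [P_succ, ih, xx]; push_cast; ring

theorem PP_ne (hd : 2 ≤ d) {j k : ℕ} (h : j < k) : PP d k - PP d j ≠ 0 := by
  intro h0
  have h1 := congrArg (fun p => Polynomial.eval 3 p) h0
  simp only [Polynomial.eval_sub, eval_PP, P_three, Polynomial.eval_zero, sub_eq_zero] at h1
  have h2 : xx d k = xx d j := by exact_mod_cast h1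
  have := xx_strictMono hd h
  omega

theorem countable_eq (hd : 2 ≤ d) {m : ℕ} (hm : 0 < m) :
    {c : ℂ | ∃ k : ℕ, P d (m * (k + 1)) c = P d (m * k) c}.Countable := by
  have h1 : {c : ℂ | ∃ k : ℕ, P d (m * (k + 1)) c = P d (m * k) c} =
      ⋃ k : ℕ, {c : ℂ | P d (m * (k + 1)) c = P d (m * k) c} := by
    ext c; simp
  rw [h1]
  refine countable_iUnion fun k => ?_
  have h2 : PP d (m * (k + 1)) - PP d (m * k) ≠ 0 := PP_ne hd (by nlinarith)
  refine ((PP d (m * (k + 1)) - PP d (m * k)).rootSet_finite ℂ).countable.mono ?_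
  intro c hc
  rw [mem_ofPred_eq] at hc
  rw [Polynomial.mem_rootSet]
  refine ⟨h2, ?_⟩
  rw [Polynomial.coe_aeval_eq_eval, Polynomial.eval_sub, eval_PP, eval_PP, hc, sub_self]

/-- a sequence converging to a repelling fixed point is eventually constant -/
theorem repelling {f : ℂ → ℂ} {a l : ℂ} {u : ℕ → ℂ} (hf : HasDerivAt f l a) (hl : 1 < ‖l‖)
    (ha : f a = a) (hu : ∀ k, u (k + 1) = f (u k)) (hlim : Tendsto u atTop (𝓝 a)) :
    ∃ k, u k = a := by
  obtain ⟨q, hq1, hq2⟩ := exists_between hl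
  have h1 : ∀ᶠ z in 𝓝 a, q * ‖z - a‖ ≤ ‖f z - f a‖ := by
    have h2 := hf.isLittleO
    have h3 := h2.def (c := ‖l‖ - q) (by linarith)
    filter_upwards [h3] with z hz
    have h4 : ‖(z - a) * l‖ ≤ ‖f z - f a‖ + ‖f z - f a - (z - a) * l‖ := by
      have := norm_sub_le (f z - f a) (f z - f a - (z - a) * l)
      rwa [sub_sub_cancel] at this
    rw [smul_eq_mul] at hz
    rw [norm_mul] at h4
    nlinarith [norm_nonneg (z - a)]
  obtain ⟨K, hK⟩ := eventually_atTop.1 (hlim.eventually h1)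
  by_contra hcon
  push Not at hcon
  have h5 : ∀ j, ‖u K - a‖ ≤ ‖u (K + j) - a‖ := by
    intro j
    induction j with
    | zero => exact le_rfl
    | succ j ih =>
      have h6 := hK (K + j) (by omega)
      rw [ha, ← hu] at h6
      refine ih.trans (le_trans ?_ h6)
      nlinarith [norm_nonneg (u (K + j) - a)]
  have h6 : Tendsto (fun j => ‖u (K + j) - a‖) atTop (𝓝 0) := by
    have h7 : Tendsto (fun j => u (K + j)) atTop (𝓝 a) :=
      hlim.comp (tendsto_atTop_mono (fun j => Nat.le_add_left j K) tendsto_id)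
    have := (h7.sub_const a).norm
    rwa [sub_self, norm_zero] at this
  have h7 := ge_of_tendsto' h6 h5
  exact hcon K (sub_eq_zero.1 (norm_le_zero_iff.1 h7))

theorem norm_P_le (hd : 2 ≤ d) {c : ℂ} (hc : c ∈ multibrotSet d) (k : ℕ) : ‖P d k c‖ ≤ 2 :=
  (Pool.Agent.H712R2.mem_multibrot_iff hd c).1 hc k

/-- **Components.** A connected open subset of the Multibrot set contains only parameters with
attracting cycles or only parameters without attracting cycles. -/
theorem component (hd : 2 ≤ d) {V : Set ℂ} (hV : IsOpen V) (hVp : IsPreconnected V)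
    (hVM : V ⊆ multibrotSet d) {c₀ : ℂ} (hc₀ : c₀ ∈ V) {m : ℕ} {z₀ : ℂ}
    (h : IsAttractingCycle (fc d c₀) m z₀) :
    ∀ c ∈ V, ∃ z, IsAttractingCycle (fc d c) m z := by
  have hm : 0 < m := h.1
  set F : ℕ → ℂ → ℂ := fun k c => P d (m * k) c with hF
  have hFd : ∀ k, DifferentiableOn ℂ (F k) V := by
    intro k
    have h1 : F k = fun c => (PP d (m * k)).eval c := by
      funext c; rw [eval_PP]
    rw [h1]
    exact (PP d (m * k)).differentiable.differentiableOn
  have hFb : ∀ k, ∀ c ∈ V, ‖F k c‖ ≤ 2 := fun k c hc => norm_P_le hd (hVM hc) _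
  have hstep : ∀ k c, F (k + 1) c = (fc d c)^[m] (F k c) := by
    intro k c
    show (fc d c)^[m * (k + 1)] 0 = (fc d c)^[m] ((fc d c)^[m * k] 0)
    rw [← Function.iterate_add_apply]
    congr 1
    ring
  have hmont := fun 𝒰 : Ultrafilter ℕ =>
    Pool.Agent.Helper114.Montel.montel hV F hFd 2 hFb 𝒰
  choose Φ hΦd hΦ using hmont
  have hΦ' : ∀ (𝒰 : Ultrafilter ℕ), ∀ c ∈ V, Tendsto (fun k => F k c) 𝒰 (𝓝 (Φ 𝒰 c)) :=
    fun 𝒰 c hc => (hΦ 𝒰).tendsto_at hc
  -- convergence close to `c₀`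
  have hloc : ∀ᶠ c in 𝓝 c₀, ∃ w, Tendsto (fun k => F k c) atTop (𝓝 w) := by
    filter_upwards [persist h] with c hc
    obtain ⟨z, hz⟩ := hc
    obtain ⟨l, hl⟩ := Pool.Agent.TH363.CD.crit_conv hd hz
    exact ⟨_, hl⟩
  obtain ⟨𝒰₀, h𝒰₀⟩ : ∃ 𝒰 : Ultrafilter ℕ, (𝒰 : Filter ℕ) ≤ atTop :=
    ⟨Ultrafilter.of atTop, Ultrafilter.of_le _⟩
  have hsame : ∀ 𝒰 : Ultrafilter ℕ, (𝒰 : Filter ℕ) ≤ atTop → EqOn (Φ 𝒰) (Φ 𝒰₀) V := by
    intro 𝒰 h𝒰
    refine AnalyticOnNhd.eqOn_of_preconnected_of_eventuallyEq ((hΦd 𝒰).analyticOnNhd hV)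
      ((hΦd 𝒰₀).analyticOnNhd hV) hVp hc₀ ?_
    filter_upwards [hloc, hV.mem_nhds hc₀] with c hc hcV
    obtain ⟨w, hw⟩ := hc
    rw [tendsto_nhds_unique (hΦ' 𝒰 c hcV) (hw.mono_left h𝒰),
      tendsto_nhds_unique (hΦ' 𝒰₀ c hcV) (hw.mono_left h𝒰₀)]
  set g : ℂ → ℂ := Φ 𝒰₀ with hg
  have hgd : DifferentiableOn ℂ g V := hΦd 𝒰₀
  have hconv : ∀ c ∈ V, Tendsto (fun k => F k c) atTop (𝓝 (g c)) := by
    intro c hc
    rw [tendsto_iff_ultrafilter]
    intro 𝒰 h𝒰
    have := hΦ' 𝒰 c hc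
    rwa [hsame 𝒰 h𝒰 hc] at this
  have hfix : ∀ c ∈ V, (fc d c)^[m] (g c) = g c := by
    intro c hc
    have h1 := (hconv c hc).comp (tendsto_add_atTop_nat 1)
    have h2 : Tendsto (fun k => (fc d c)^[m] (F k c)) atTop (𝓝 ((fc d c)^[m] (g c))) :=
      ((hasDerivAt_iter d m c (g c)).continuousAt.tendsto).comp (hconv c hc)
    refine tendsto_nhds_unique h2 (h1.congr fun k => ?_)
    exact hstep k c
  set lam : ℂ → ℂ := fun c => DD d m c (g c) with hlam
  have hlamd : DifferentiableOn ℂ lam V := diff_DD d m hgd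
  -- not repelling
  have hle : ∀ c ∈ V, ‖lam c‖ ≤ 1 := by
    intro c₁ hc₁
    by_contra hcon
    rw [not_le] at hcon
    have h1 : ∀ᶠ c in 𝓝 c₁, 1 < ‖lam c‖ :=
      ((hlamd.differentiableAt (hV.mem_nhds hc₁)).continuousAt.norm).eventually (lt_mem_nhds hcon)
    have h2 : {c : ℂ | ∃ k : ℕ, P d (m * (k + 1)) c = P d (m * k) c} ∈ 𝓝 c₁ := by
      filter_upwards [h1, hV.mem_nhds hc₁] with c hc hcV
      obtain ⟨k, hk⟩ := repelling (hasDerivAt_iter d m c (g c)) hc (hfix c hcV)
        (fun k => hstep k c) (hconv c hcV)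
      refine ⟨k, ?_⟩
      show F (k + 1) c = F k c
      rw [hstep, hk, hfix c hcV]
    obtain ⟨r, hr, hr2⟩ := Metric.mem_nhds_iff.1 h2
    have h3 : volume (ball c₁ r) = 0 := ((countable_eq hd hm).mono hr2).measure_zero volume
    exact (measure_ball_pos volume c₁ hr).ne' h3
  -- attracting at `c₀`
  have hlt : ‖lam c₀‖ < 1 := by
    obtain ⟨l, hl⟩ := Pool.Agent.TH363.CD.crit_conv hd h
    have h1 : g c₀ = (fc d c₀)^[l] z₀ := tendsto_nhds_unique (hconv c₀ hc₀) hl
    rw [hlam]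
    simp only
    rw [h1, DD_cycle d hm h.2.1 l, ← (hasDerivAt_iter d m c₀ z₀).deriv]
    exact h.2.2.2
  intro c hc
  refine ⟨g c, hm, hfix c hc, (hasDerivAt_iter d m c (g c)).differentiableAt, ?_⟩
  rw [(hasDerivAt_iter d m c (g c)).deriv]
  by_contra hcon
  rw [not_lt] at hcon
  have hmax : IsMaxOn (norm ∘ lam) V c := fun w hw => (hle w hw).trans hcon
  have h1 := Complex.eqOn_of_isPreconnected_of_isMaxOn_norm hVp hV hlamd hc hmax hc₀
  rw [Function.const_apply] at h1
  rw [h1] at hlt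
  exact absurd hlt (not_lt.2 hcon)

end Pool.Agent.N673.QC
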