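import Pool.Agent.H792R2.SS.KB
import Pool.Agent.W677.MarM

/-! # Radial growth of the derivative of a univalent function -/

set_option autoImplicit false

namespace Pool.Agent.N673.Mak

open Complex Metric Set Filter Topology MeasureTheory
open Pool.Agent.W677.Mar (pt lam bloch_exp norm_pt pt_periodic continuous_pt norm_pt_sub lam_pos)

variable {φ : ℂ → ℂ}

theorem exists_log (hφ : DifferentiableOn ℂ φ (ball 0 1)) (hinj : InjOn φ (ball 0 1)) :
    ∃ g : ℂ → ℂ, DifferentiableOn ℂ g (ball 0 1) ∧ g 0 = 0 ∧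
      (∀ w ∈ ball (0 : ℂ) 1, ‖deriv g w‖ * (1 - ‖w‖) ≤ 4) ∧ deriv φ 0 ≠ 0 ∧
      ∀ w ∈ ball (0 : ℂ) 1, deriv φ w = deriv φ 0 * exp (g w) := by
  have hkb : ∀ w ∈ ball (0 : ℂ) 1, deriv φ w ≠ 0 ∧
      (1 - ‖w‖) * ‖deriv (deriv φ) w‖ ≤ 4 * ‖deriv φ w‖ := by
    intro w hw
    have hw1 : ‖w‖ < 1 := mem_ball_zero_iff.1 hw
    have hsub : ball w (1 - ‖w‖) ⊆ ball 0 1 := by
      intro x hx
      rw [mem_ball_zero_iff]
      rw [mem_ball_iff_norm] at hx
      calc ‖x‖ = ‖(x - w) + w‖ := by rw [sub_add_cancel]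
        _ ≤ ‖x - w‖ + ‖w‖ := norm_add_le _ _
        _ < 1 := by linarith
    exact Pool.Agent.H792R2.SS.t_KB φ w (1 - ‖w‖) (by linarith) (hφ.mono hsub) (hinj.mono hsub)
  have h0 : (0 : ℂ) ∈ ball (0 : ℂ) 1 := mem_ball_self one_pos
  have hdφ : DifferentiableOn ℂ (deriv φ) (ball 0 1) := hφ.deriv isOpen_ball
  have hd : DifferentiableOn ℂ (fun z => deriv (deriv φ) z / deriv φ z) (ball 0 1) :=
    (hdφ.deriv isOpen_ball).div hdφ fun z hz => (hkb z hz).1
  obtain ⟨g, hg0, hg⟩ := hd.isExactOn_ball.with_val_at 0 0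
  have hgd : DifferentiableOn ℂ g (ball 0 1) :=
    fun z hz => (hg z hz).differentiableAt.differentiableWithinAt
  refine ⟨g, hgd, hg0, fun w hw => ?_, (hkb 0 h0).1, fun w hw => ?_⟩
  · rw [(hg w hw).deriv, norm_div, div_mul_eq_mul_div,
      div_le_iff₀ (norm_pos_iff.2 (hkb w hw).1), mul_comm]
    exact (hkb w hw).2
  · have hc : deriv φ w * exp (-g w) = deriv φ 0 * exp (-g 0) := by
      refine isOpen_ball.is_const_of_deriv_eq_zero (convex_ball (0 : ℂ) 1).isPreconnected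
        (f := fun z => deriv φ z * exp (-g z)) (hdφ.mul hgd.neg.cexp) ?_ hw h0
      intro x hx
      have h1 : HasDerivAt (deriv φ) (deriv (deriv φ) x) x :=
        (hdφ.differentiableAt (isOpen_ball.mem_nhds hx)).hasDerivAt
      have h2 := h1.mul (hg x hx).neg.cexp
      simp only [Pi.zero_apply]
      refine Eq.trans h2.deriv ?_
      have := (hkb x hx).1
      field_simp
      ring
    rw [hg0, neg_zero, exp_zero, mul_one, exp_neg] at hc
    rw [← hc, mul_assoc, inv_mul_cancel₀ (exp_ne_zero _), mul_one]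

/-- Bloch functions have radial growth `o(log (1 / (1 - r)))` almost everywhere. -/
theorem bloch_growth {g : ℂ → ℂ} (hg : DifferentiableOn ℂ g (ball 0 1)) (h0 : g 0 = 0)
    (hB : ∀ w ∈ ball (0 : ℂ) 1, ‖deriv g w‖ * (1 - ‖w‖) ≤ 4) {ε : ℝ} (hε : 0 < ε) :
    ∀ᵐ θ : ℝ ∂(volume.restrict (Ioc 0 (2 * Real.pi))), ∀ᶠ n : ℕ in atTop,
      ‖g (pt (1 - (1 / 2) ^ (n + 1)) θ)‖ < ε * (n + 1) := by
  have hpi := Real.pi_pos
  have hl2 : 0 < Real.log 2 := Real.log_pos one_lt_two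
  set κ : ℝ := Real.exp (-(1 / 128 * ε ^ 2 / Real.log 2)) with hκ
  have hκ0 : 0 < κ := Real.exp_pos _
  have hκ1 : κ < 1 := by
    rw [hκ, Real.exp_lt_one_iff]
    have : 0 < 1 / 128 * ε ^ 2 / Real.log 2 := by positivity
    linarith
  have key : ∀ n : ℕ, (volume.restrict (Ioc 0 (2 * Real.pi)))
      {θ : ℝ | ¬ ‖g (pt (1 - (1 / 2) ^ (n + 1)) θ)‖ < ε * (n + 1)} ≤
      ENNReal.ofReal (4 * Real.pi * κ ^ (n + 1)) := by
    intro n
    set r : ℝ := 1 - (1 / 2) ^ (n + 1) with hr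
    have hp : (0 : ℝ) < (1 / 2) ^ (n + 1) := by positivity
    have hp1 : ((1 : ℝ) / 2) ^ (n + 1) < 1 := pow_lt_one₀ (by norm_num) (by norm_num) (by omega)
    have hr0 : 0 < r := by rw [hr]; linarith
    have hr1 : r < 1 := by rw [hr]; linarith
    have h1 := bloch_exp hg h0 hB (c := 1 / 128) (by norm_num) (by norm_num) hr0 hr1
    have hlam : lam (r ^ 2) ≤ (n + 1) * Real.log 2 := by
      unfold lam
      have h2 : (1 / 2 : ℝ) ^ (n + 1) ≤ 1 - r ^ 2 := by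
        have : r ^ 2 ≤ r := by nlinarith
        rw [hr] at this ⊢
        linarith
      have h3 := Real.log_le_log hp h2
      rw [Real.log_pow, one_div, Real.log_inv] at h3
      push_cast at h3
      linarith
    have hlam0 : 0 < lam (r ^ 2) := lam_pos (by positivity) (pow_lt_one₀ hr0.le hr1 two_ne_zero)
    have hgc : Continuous fun θ : ℝ => g (pt r θ) := by
      refine hg.continuousOn.comp_continuous (continuous_pt r) fun θ => ?_
      rw [mem_ball_zero_iff, norm_pt r θ hr0.le]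
      exact hr1
    have hfc : Continuous fun θ : ℝ => Real.exp (1 / 128 * ‖g (pt r θ)‖ ^ 2 / lam (r ^ 2)) :=
      Real.continuous_exp.comp ((continuous_const.mul (hgc.norm.pow 2)).div_const _)
    have h4 := mul_meas_ge_le_integral_of_nonneg (μ := volume.restrict (Ioc 0 (2 * Real.pi)))
      (f := fun θ : ℝ => Real.exp (1 / 128 * ‖g (pt r θ)‖ ^ 2 / lam (r ^ 2)))
      (Eventually.of_forall fun θ => (Real.exp_pos _).le)
      ((hfc.integrableOn_Icc (a := 0) (b := 2 * Real.pi)).mono_set Ioc_subset_Icc_self)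
      (κ⁻¹ ^ (n + 1))
    rw [intervalIntegral.integral_of_le (by positivity)] at h1
    have h5 : {θ : ℝ | ¬ ‖g (pt r θ)‖ < ε * (n + 1)} ⊆
        {θ : ℝ | κ⁻¹ ^ (n + 1) ≤ Real.exp (1 / 128 * ‖g (pt r θ)‖ ^ 2 / lam (r ^ 2))} := by
      intro θ hθ
      rw [mem_ofPred_eq, not_lt] at hθ
      rw [mem_ofPred_eq, hκ, ← Real.exp_neg, neg_neg, ← Real.exp_nat_mul]
      apply Real.exp_le_exp.2
      rw [le_div_iff₀ hlam0]
      have h6 : (ε * (n + 1)) ^ 2 ≤ ‖g (pt r θ)‖ ^ 2 := pow_le_pow_left₀ (by positivity) hθ 2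
      calc ((n + 1 : ℕ) : ℝ) * (1 / 128 * ε ^ 2 / Real.log 2) * lam (r ^ 2)
          ≤ ((n + 1 : ℕ) : ℝ) * (1 / 128 * ε ^ 2 / Real.log 2) * ((n + 1) * Real.log 2) := by
            apply mul_le_mul_of_nonneg_left hlam (by positivity)
        _ = 1 / 128 * (ε * (n + 1)) ^ 2 := by
            push_cast
            field_simp
        _ ≤ 1 / 128 * ‖g (pt r θ)‖ ^ 2 := by linarith
    refine (measure_mono h5).trans ?_
    have h7 : (volume.restrict (Ioc 0 (2 * Real.pi))).real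
        {θ : ℝ | κ⁻¹ ^ (n + 1) ≤ Real.exp (1 / 128 * ‖g (pt r θ)‖ ^ 2 / lam (r ^ 2))} ≤
        4 * Real.pi * κ ^ (n + 1) := by
      have h8 := h4.trans h1
      generalize (volume.restrict (Ioc 0 (2 * Real.pi))).real
        {θ : ℝ | κ⁻¹ ^ (n + 1) ≤ Real.exp (1 / 128 * ‖g (pt r θ)‖ ^ 2 / lam (r ^ 2))} = V at h8 ⊢
      rw [inv_pow, inv_mul_le_iff₀ (by positivity)] at h8
      refine h8.trans_eq ?_
      norm_num
      ring
    rw [measureReal_def] at h7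
    rwa [← ENNReal.le_ofReal_iff_toReal_le (measure_ne_top _ _) (by positivity)] at h7
  have hsum : ∑' n : ℕ, (volume.restrict (Ioc 0 (2 * Real.pi)))
      {θ : ℝ | ¬ ‖g (pt (1 - (1 / 2) ^ (n + 1)) θ)‖ < ε * (n + 1)} ≠ ⊤ := by
    have h1 : Summable fun n : ℕ => 4 * Real.pi * κ ^ (n + 1) :=
      ((summable_nat_add_iff 1).2 (summable_geometric_of_lt_one hκ0.le hκ1)).mul_left _
    refine ne_top_of_le_ne_top ?_ (ENNReal.tsum_le_tsum key)
    exact h1.tsum_ofReal_ne_top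
  filter_upwards [ae_eventually_notMem hsum] with θ hθ
  filter_upwards [hθ] with n hn
  exact not_not.1 hn

/-- between the scales -/
theorem near_scale {g : ℂ → ℂ} (hg : DifferentiableOn ℂ g (ball 0 1))
    (hB : ∀ w ∈ ball (0 : ℂ) 1, ‖deriv g w‖ * (1 - ‖w‖) ≤ 4) (n : ℕ) {r : ℝ}
    (h1 : 1 - (1 / 2 : ℝ) ^ (n + 1) ≤ r) (h2 : r ≤ 1 - (1 / 2) ^ (n + 2)) (θ : ℝ) :
    ‖g (pt r θ) - g (pt (1 - (1 / 2) ^ (n + 1)) θ)‖ ≤ 4 := by
  set s : ℝ := 1 - (1 / 2 : ℝ) ^ (n + 1) with hs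
  set t : ℝ := 1 - (1 / 2 : ℝ) ^ (n + 2) with ht
  have hp : (0 : ℝ) < (1 / 2) ^ (n + 2) := by positivity
  have hp2 : ((1 : ℝ) / 2) ^ (n + 1) = 2 * (1 / 2) ^ (n + 2) := by ring
  have hp1 : ((1 : ℝ) / 2) ^ (n + 1) < 1 := pow_lt_one₀ (by norm_num) (by norm_num) (by omega)
  have hs0 : 0 ≤ s := by rw [hs]; linarith
  have ht1 : t < 1 := by rw [ht]; linarith
  have hmv := (convex_closedBall (0 : ℂ) t).norm_image_sub_le_of_norm_deriv_le
    (f := g) (C := 4 / (1 - t)) (x := pt s θ) (y := pt r θ) ?_ ?_ ?_ ?_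
  · refine hmv.trans ?_
    rw [norm_pt_sub, abs_of_nonneg (by linarith), div_mul_eq_mul_div, div_le_iff₀ (by linarith)]
    rw [ht] at h2 ⊢
    rw [hs] at h1 ⊢
    nlinarith
  · intro x hx
    rw [mem_closedBall_zero_iff] at hx
    exact hg.differentiableAt (isOpen_ball.mem_nhds (by rw [mem_ball_zero_iff]; linarith))
  · intro x hx
    rw [mem_closedBall_zero_iff] at hx
    have h3 := hB x (by rw [mem_ball_zero_iff]; linarith)
    rw [le_div_iff₀ (by linarith)]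
    exact le_trans (mul_le_mul_of_nonneg_left (by linarith) (norm_nonneg _)) h3
  · rw [mem_closedBall_zero_iff, norm_pt s θ hs0]; linarith
  · rw [mem_closedBall_zero_iff, norm_pt r θ (hs0.trans h1)]; exact h2

theorem exists_scale {r : ℝ} (h1 : 1 / 2 ≤ r) (h2 : r < 1) :
    ∃ n : ℕ, 1 - (1 / 2 : ℝ) ^ (n + 1) ≤ r ∧ r < 1 - (1 / 2) ^ (n + 2) := by
  have hex : ∃ n : ℕ, r < 1 - (1 / 2 : ℝ) ^ (n + 2) := by
    obtain ⟨n, hn⟩ := exists_pow_lt_of_lt_one (sub_pos.2 h2) (by norm_num : (1 / 2 : ℝ) < 1)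
    refine ⟨n, ?_⟩
    have h3 : (1 / 2 : ℝ) ^ (n + 2) ≤ (1 / 2) ^ n :=
      pow_le_pow_of_le_one (by norm_num) (by norm_num) (by omega)
    linarith
  classical
  refine ⟨Nat.find hex, ?_, Nat.find_spec hex⟩
  rcases Nat.eq_zero_or_pos (Nat.find hex) with h | h
  · rw [h]; norm_num; linarith
  · have h3 := Nat.find_min hex (m := Nat.find hex - 1) (by omega)
    rw [not_lt] at h3
    have h4 : Nat.find hex - 1 + 2 = Nat.find hex + 1 := by omega
    rw [h4] at h3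
    exact h3

/-- Radial growth of the derivative of a univalent function, almost everywhere in `(0, 2 π]`. -/
theorem growth_Ioc (hφ : DifferentiableOn ℂ φ (ball 0 1)) (hinj : InjOn φ (ball 0 1)) :
    ∀ᵐ θ : ℝ ∂(volume.restrict (Ioc 0 (2 * Real.pi))), ∀ ε : ℝ, 0 < ε → ∃ N : ℕ, 1 ≤ N ∧
      ∀ r ∈ Ico (1 - (1 / 2 : ℝ) ^ N) 1, (1 - r) ^ ε ≤ ‖deriv φ (pt r θ)‖ ∧
        ‖deriv φ (pt r θ)‖ ≤ (1 - r) ^ (-ε) := by
  obtain ⟨g, hg, hg0, hB, hne, hexp⟩ := exists_log hφ hinj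
  have hl2 : 0 < Real.log 2 := Real.log_pos one_lt_two
  have h1 : ∀ᵐ θ : ℝ ∂(volume.restrict (Ioc 0 (2 * Real.pi))), ∀ k : ℕ, ∀ᶠ n : ℕ in atTop,
      ‖g (pt (1 - (1 / 2) ^ (n + 1)) θ)‖ < (1 / (k + 1 : ℝ)) * (n + 1) :=
    ae_all_iff.2 fun k => bloch_growth hg hg0 hB (by positivity)
  filter_upwards [h1] with θ hθ ε hε
  obtain ⟨k, hk⟩ := exists_nat_gt (2 / (ε * Real.log 2))
  have hk' : 1 / (k + 1 : ℝ) ≤ ε * Real.log 2 / 2 := by
    rw [div_lt_iff₀ (by positivity)] at hk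
    rw [div_le_div_iff₀ (by positivity) two_pos]
    nlinarith [mul_pos hε hl2]
  -- the constant is absorbed for large `n`
  have hlim : ∀ᶠ n : ℕ in atTop, |Real.log ‖deriv φ 0‖| + 4 ≤ ε * Real.log 2 / 2 * (n + 1) := by
    have : Tendsto (fun n : ℕ => ε * Real.log 2 / 2 * ((n : ℝ) + 1)) atTop atTop :=
      (tendsto_natCast_atTop_atTop.atTop_add tendsto_const_nhds).const_mul_atTop (by positivity)
    exact this.eventually_ge_atTop _
  obtain ⟨N, hN⟩ := eventually_atTop.1 ((hθ k).and hlim)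
  refine ⟨N + 1, by omega, fun r hr => ?_⟩
  have hp : (0 : ℝ) < (1 / 2) ^ (N + 1) := by positivity
  have hr12 : 1 / 2 ≤ r := by
    have : ((1 : ℝ) / 2) ^ (N + 1) ≤ (1 / 2) ^ 1 :=
      pow_le_pow_of_le_one (by norm_num) (by norm_num) (by omega)
    linarith [hr.1]
  have hr1 : r < 1 := hr.2
  obtain ⟨n, hn1, hn2⟩ := exists_scale hr12 hr1
  have hnN : N ≤ n := by
    by_contra h
    rw [not_le] at h
    have h3 : (1 / 2 : ℝ) ^ (N + 1) ≤ (1 / 2) ^ (n + 2) :=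
      pow_le_pow_of_le_one (by norm_num) (by norm_num) (by omega)
    linarith [hr.1]
  obtain ⟨h3, h4⟩ := hN n hnN
  have h5 := near_scale hg hB n hn1 hn2.le θ
  have h6 : ‖g (pt r θ)‖ ≤ 1 / (k + 1 : ℝ) * (n + 1) + 4 := by
    calc ‖g (pt r θ)‖ = ‖(g (pt r θ) - g (pt (1 - (1 / 2) ^ (n + 1)) θ)) +
          g (pt (1 - (1 / 2) ^ (n + 1)) θ)‖ := by rw [sub_add_cancel]
      _ ≤ _ := norm_add_le _ _
      _ ≤ _ := by linarith
  have hlog : (n + 1) * Real.log 2 ≤ -Real.log (1 - r) := by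
    have h7 : 1 - r ≤ (1 / 2) ^ (n + 1) := by linarith
    have h8 := Real.log_le_log (by linarith) h7
    rw [Real.log_pow, one_div, Real.log_inv] at h8
    push_cast at h8
    linarith
  have hw : pt r θ ∈ ball (0 : ℂ) 1 := by
    rw [mem_ball_zero_iff, norm_pt r θ (by linarith)]; exact hr1
  have hnorm : Real.log ‖deriv φ (pt r θ)‖ = Real.log ‖deriv φ 0‖ + (g (pt r θ)).re := by
    rw [hexp _ hw, norm_mul, norm_exp, Real.log_mul (norm_ne_zero_iff.2 hne) (Real.exp_ne_zero _),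
      Real.log_exp]
  have hre := abs_le.1 (abs_re_le_norm (g (pt r θ)))
  have habs := neg_abs_le (Real.log ‖deriv φ 0‖)
  have habs2 := le_abs_self (Real.log ‖deriv φ 0‖)
  have hmain : |Real.log ‖deriv φ 0‖| + (1 / (k + 1 : ℝ) * (n + 1) + 4) ≤
      ε * (-Real.log (1 - r)) := by
    have h9 : 1 / (k + 1 : ℝ) * (n + 1) ≤ ε * Real.log 2 / 2 * (n + 1) :=
      mul_le_mul_of_nonneg_right hk' (by positivity)
    have h10 := mul_le_mul_of_nonneg_left hlog hε.le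
    nlinarith
  have hpos : 0 < ‖deriv φ (pt r θ)‖ := by
    rw [hexp _ hw, norm_mul]
    exact mul_pos (norm_pos_iff.2 hne) (norm_pos_iff.2 (exp_ne_zero _))
  constructor
  · rw [← Real.log_le_log_iff (by have : 0 < 1 - r := by linarith
                                  positivity) hpos, Real.log_rpow (by linarith), hnorm]
    nlinarith [hre.1]
  · rw [← Real.log_le_log_iff hpos (by have : 0 < 1 - r := by linarith
                                       positivity), Real.log_rpow (by linarith), hnorm]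
    nlinarith [hre.2]

end Pool.Agent.N673.Mak
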