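import Pool.Agent.N673.QC.MakA
import Pool.Agent.H713R2.Area

/-! # Angles at which the image of a radial point is close to a given point -/

set_option autoImplicit false

namespace Pool.Agent.N673.Mak

open Complex Metric Set Filter Topology MeasureTheory
open Pool.Agent.W677.Mar (pt lam bloch_exp norm_pt pt_periodic continuous_pt norm_pt_sub lam_pos)

variable {φ : ℂ → ℂ} {ε : ℝ} {N : ℕ}

/-- the angles with the growth estimates from the scale `N` on -/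
def G (φ : ℂ → ℂ) (ε : ℝ) (N : ℕ) : Set ℝ :=
  {θ | θ ∈ Ioc 0 (2 * Real.pi) ∧ ∀ r ∈ Ico (1 - (1 / 2 : ℝ) ^ N) 1,
    (1 - r) ^ ε ≤ ‖deriv φ (pt r θ)‖ ∧ ‖deriv φ (pt r θ)‖ ≤ (1 - r) ^ (-ε)}

theorem half_pow_le (hN : 1 ≤ N) : ((1 : ℝ) / 2) ^ N ≤ 1 / 2 := by
  have : ((1 : ℝ) / 2) ^ N ≤ (1 / 2) ^ 1 := pow_le_pow_of_le_one (by norm_num) (by norm_num) hN
  simpa using this

theorem cont_pt (hφ : DifferentiableOn ℂ φ (ball 0 1)) {r : ℝ} (h0 : 0 ≤ r) (h1 : r < 1) :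
    Continuous fun θ : ℝ => φ (pt r θ) := by
  refine hφ.continuousOn.comp_continuous (continuous_pt r) fun θ => ?_
  rw [mem_ball_zero_iff, norm_pt r θ h0]
  exact h1

theorem measurableSet_G (hφ : DifferentiableOn ℂ φ (ball 0 1)) (hN : 1 ≤ N) :
    MeasurableSet (G φ ε N) := by
  have h1 : IsClosed {θ : ℝ | ∀ r ∈ Ico (1 - (1 / 2 : ℝ) ^ N) 1,
      (1 - r) ^ ε ≤ ‖deriv φ (pt r θ)‖ ∧ ‖deriv φ (pt r θ)‖ ≤ (1 - r) ^ (-ε)} := by
    have h2 : {θ : ℝ | ∀ r ∈ Ico (1 - (1 / 2 : ℝ) ^ N) 1,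
      (1 - r) ^ ε ≤ ‖deriv φ (pt r θ)‖ ∧ ‖deriv φ (pt r θ)‖ ≤ (1 - r) ^ (-ε)} =
      ⋂ r ∈ Ico (1 - (1 / 2 : ℝ) ^ N) 1, {θ : ℝ |
      (1 - r) ^ ε ≤ ‖deriv φ (pt r θ)‖ ∧ ‖deriv φ (pt r θ)‖ ≤ (1 - r) ^ (-ε)} := by
      ext θ; simp
    rw [h2]
    refine isClosed_biInter fun r hr => ?_
    have hc := (cont_pt (hφ.deriv isOpen_ball) (r := r)
      (by linarith [half_pow_le hN, hr.1]) hr.2).norm
    exact (isClosed_le continuous_const hc).inter (isClosed_le hc continuous_const)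
  exact measurableSet_Ioc.inter h1.measurableSet

theorem hasDerivAt_rad (hφ : DifferentiableOn ℂ φ (ball 0 1)) {r : ℝ} (h0 : 0 ≤ r) (h1 : r < 1)
    (θ : ℝ) : HasDerivAt (fun s : ℝ => φ (pt s θ)) (deriv φ (pt r θ) * exp (θ * I)) r := by
  have hw : pt r θ ∈ ball (0 : ℂ) 1 := by
    rw [mem_ball_zero_iff, norm_pt r θ h0]; exact h1
  have h2 : HasDerivAt (fun s : ℝ => pt s θ) (exp (θ * I)) r := by
    have h3 : (fun s : ℝ => pt s θ) = fun s : ℝ => (s : ℂ) * exp (θ * I) := by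
      funext s; unfold pt circleMap; rw [zero_add]
    rw [h3]
    simpa using (ofRealCLM.hasDerivAt (x := r)).mul_const (exp (θ * I))
  exact (hφ.differentiableAt (isOpen_ball.mem_nhds hw)).hasDerivAt.comp_of_eq r h2 rfl

/-- length of radial segments -/
theorem length_le (hφ : DifferentiableOn ℂ φ (ball 0 1)) (hN : 1 ≤ N)
    (hε1 : ε ≤ 1 / 2) {θ : ℝ} (hθ : θ ∈ G φ ε N) {r s : ℝ} (hr : 1 - (1 / 2 : ℝ) ^ N ≤ r)
    (hrs : r ≤ s) (hs : s < 1) :
    ‖φ (pt s θ) - φ (pt r θ)‖ ≤ 2 * (1 - r) ^ (1 - ε) := by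
  have hh := half_pow_le hN
  have hb := image_norm_le_of_norm_deriv_right_le_deriv_boundary'
    (f := fun x : ℝ => φ (pt x θ) - φ (pt r θ)) (f' := fun x => deriv φ (pt x θ) * exp (θ * I))
    (a := r) (b := s)
    (B := fun x => ((1 - r) ^ (1 - ε) - (1 - x) ^ (1 - ε)) / (1 - ε))
    (B' := fun x => (1 - x) ^ (-ε)) ?_ ?_ ?_ ?_ ?_ ?_ (x := s) ⟨hrs, le_rfl⟩
  · refine hb.trans ?_
    have h1 : 0 ≤ (1 - s) ^ (1 - ε) := Real.rpow_nonneg (by linarith) _
    have h2 : 0 ≤ (1 - r) ^ (1 - ε) := Real.rpow_nonneg (by linarith) _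
    rw [div_le_iff₀ (by linarith)]
    nlinarith
  · intro x hx
    exact ((hasDerivAt_rad hφ (by linarith [hx.1]) (by linarith [hx.2]) θ).sub_const
      _).continuousAt.continuousWithinAt
  · intro x hx
    exact ((hasDerivAt_rad hφ (by linarith [hx.1]) (by linarith [hx.2]) θ).sub_const
      _).hasDerivWithinAt
  · simp
  · intro x hx
    have hx1 : x < 1 := by linarith [hx.2]
    apply ContinuousWithinAt.div_const
    apply ContinuousWithinAt.sub continuousWithinAt_const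
    apply ContinuousWithinAt.rpow_const
    · exact (continuous_const.sub continuous_id).continuousWithinAt
    · left; exact (by linarith : (1 : ℝ) - x ≠ 0)
  · intro x hx
    have hx1 : x < 1 := by linarith [hx.2]
    have h1 : HasDerivAt (fun x : ℝ => 1 - x) (-1) x := by
      simpa using (hasDerivAt_id x).const_sub 1
    have h2 := (h1.rpow_const (p := 1 - ε) (Or.inl (by linarith))).const_sub ((1 - r) ^ (1 - ε))
    have h3 := h2.div_const (1 - ε)
    refine (h3.congr_deriv ?_).hasDerivWithinAt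
    rw [show 1 - ε - 1 = -ε by ring]
    have : (1 - ε) ≠ 0 := by linarith
    field_simp
  · intro x hx
    have h1 := (hθ.2 x ⟨by linarith [hx.1], by linarith [hx.2]⟩).2
    rw [norm_mul, norm_exp_ofReal_mul_I, mul_one]
    exact h1

/-- the radial limit -/
theorem exists_limit (hφ : DifferentiableOn ℂ φ (ball 0 1)) (hN : 1 ≤ N)
    (hε1 : ε ≤ 1 / 2) {θ : ℝ} (hθ : θ ∈ G φ ε N) :
    ∃ p : ℂ, Tendsto (fun r : ℝ => φ (pt r θ)) (𝓝[<] 1) (𝓝 p) := by
  have hh := half_pow_le hN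
  have hp : (0 : ℝ) < (1 / 2) ^ N := by positivity
  apply cauchy_map_iff_exists_tendsto.1
  rw [Metric.cauchy_iff]
  refine ⟨inferInstance, fun δ hδ => ?_⟩
  have h1 : Tendsto (fun r : ℝ => 2 * (1 - r) ^ (1 - ε)) (𝓝[<] 1) (𝓝 0) := by
    have h2 : Tendsto (fun r : ℝ => 1 - r) (𝓝[<] 1) (𝓝 0) := by
      have : Tendsto (fun r : ℝ => 1 - r) (𝓝 1) (𝓝 (1 - 1)) :=
        (continuous_const.sub continuous_id).tendsto 1
      rw [sub_self] at this
      exact this.mono_left nhdsWithin_le_nhds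
    have h3 : Tendsto (fun x : ℝ => 2 * x ^ (1 - ε)) (𝓝 0) (𝓝 (2 * 0 ^ (1 - ε))) :=
      ((Real.continuousAt_rpow_const 0 (1 - ε) (Or.inr (by linarith))).tendsto).const_mul 2
    rw [Real.zero_rpow (by linarith), mul_zero] at h3
    exact h3.comp h2
  have h2 : ∀ᶠ r : ℝ in 𝓝[<] 1, 2 * (1 - r) ^ (1 - ε) < δ / 2 :=
    h1.eventually (gt_mem_nhds (by linarith))
  have h3 : ∀ᶠ r : ℝ in 𝓝[<] 1, r ∈ Ioo (1 - (1 / 2 : ℝ) ^ N) 1 :=
    Ioo_mem_nhdsLT (by linarith)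
  obtain ⟨r, h4, h5⟩ := (h2.and h3).exists
  refine ⟨(fun r : ℝ => φ (pt r θ)) '' Ico r 1, image_mem_map (Ico_mem_nhdsLT h5.2), ?_⟩
  rintro _ ⟨x, hx, rfl⟩ _ ⟨y, hy, rfl⟩
  have h6 := length_le hφ hN hε1 hθ h5.1.le hx.1 hx.2
  have h7 := length_le hφ hN hε1 hθ h5.1.le hy.1 hy.2
  rw [← dist_eq_norm] at h6 h7
  calc dist (φ (pt x θ)) (φ (pt y θ)) ≤ dist (φ (pt x θ)) (φ (pt r θ)) +
      dist (φ (pt y θ)) (φ (pt r θ)) := dist_triangle_right _ _ _
    _ < δ := by linarith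

theorem dist_limit (hφ : DifferentiableOn ℂ φ (ball 0 1)) (hN : 1 ≤ N)
    (hε1 : ε ≤ 1 / 2) {θ : ℝ} (hθ : θ ∈ G φ ε N) {p : ℂ}
    (hp : Tendsto (fun r : ℝ => φ (pt r θ)) (𝓝[<] 1) (𝓝 p)) {r : ℝ}
    (hr : 1 - (1 / 2 : ℝ) ^ N ≤ r) (hr1 : r < 1) :
    ‖p - φ (pt r θ)‖ ≤ 2 * (1 - r) ^ (1 - ε) := by
  refine le_of_tendsto (hp.sub_const (φ (pt r θ))).norm ?_
  filter_upwards [Ico_mem_nhdsLT hr1] with s hs
  exact length_le hφ hN hε1 hθ hr hs.1 hs.2

theorem exp_eq_pt (ζ : ℂ) : exp ζ = pt (Real.exp ζ.re) ζ.im := by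
  unfold pt circleMap
  rw [zero_add, ofReal_exp, ← Complex.exp_add, re_add_im]

/-- The set of angles at which the point at distance `h` from the circle is mapped close to `x`. -/
theorem vol_le (hφ : DifferentiableOn ℂ φ (ball 0 1)) (hinj : InjOn φ (ball 0 1)) (hN : 1 ≤ N)
    (hε : 0 < ε) (hε1 : ε ≤ 1 / 8) {h : ℝ} (h0 : 0 < h) (hh : h ≤ (1 / 2) ^ N) (x : ℂ) :
    volume {θ | θ ∈ G φ ε N ∧ ‖φ (pt (1 - h) θ) - x‖ ≤ 3 * h ^ (1 - ε)} ≤
      ENNReal.ofReal (400 * Real.pi * h ^ (1 - 4 * ε)) := by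
  have hpi := Real.pi_pos
  have hh2 := half_pow_le hN
  set B : Set ℝ := {θ | θ ∈ G φ ε N ∧ ‖φ (pt (1 - h) θ) - x‖ ≤ 3 * h ^ (1 - ε)} with hB
  have hBm : MeasurableSet B := (measurableSet_G hφ hN).inter
    (isClosed_le (((cont_pt hφ (by linarith) (by linarith)).sub continuous_const).norm)
      continuous_const).measurableSet
  have hBI : B ⊆ Ioc 0 (2 * Real.pi) := fun θ hθ => hθ.1.1
  have hBfin : volume B ≠ ⊤ := by
    refine ne_top_of_le_ne_top ?_ (measure_mono hBI)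
    rw [Real.volume_Ioc]
    exact ENNReal.ofReal_ne_top
  set a : ℝ := Real.log (1 - h) with ha
  set b : ℝ := Real.log (1 - h / 2) with hb
  have hab : h / 2 ≤ b - a := by
    rw [ha, hb, ← Real.log_div (by linarith) (by linarith)]
    have h1 := Real.one_sub_inv_le_log_of_pos (x := (1 - h / 2) / (1 - h))
      (div_pos (by linarith) (by linarith))
    refine le_trans ?_ h1
    rw [inv_div, one_sub_div (by linarith), le_div_iff₀ (by linarith)]
    nlinarith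
  have hb0 : b < 0 := Real.log_neg (by linarith) (by linarith)
  set S : Set ℂ := {ζ | ζ.re ∈ Icc a b ∧ ζ.im ∈ B} with hS
  have hSm : MeasurableSet S := (measurable_re measurableSet_Icc).inter (measurable_im hBm)
  have hSv : volume S = ENNReal.ofReal (b - a) * volume B := by
    have h1 : S = Complex.measurableEquivRealProd ⁻¹' (Icc a b ×ˢ B) := by
      ext ζ; rfl
    rw [h1, Complex.volume_preserving_equiv_real_prod.measure_preimage_equiv,
      Measure.volume_eq_prod, Measure.prod_prod, Real.volume_Icc]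
  have hre : ∀ ζ ∈ S, 1 - h ≤ Real.exp ζ.re ∧ Real.exp ζ.re ≤ 1 - h / 2 := by
    intro ζ hζ
    refine ⟨?_, ?_⟩
    · rw [← Real.exp_log (show 0 < 1 - h by linarith)]
      exact Real.exp_le_exp.2 hζ.1.1
    · rw [← Real.exp_log (show 0 < 1 - h / 2 by linarith)]
      exact Real.exp_le_exp.2 hζ.1.2
  have hmem : ∀ ζ ∈ S, exp ζ ∈ ball (0 : ℂ) 1 := by
    intro ζ hζ
    rw [mem_ball_zero_iff, norm_exp]
    linarith [(hre ζ hζ).2]
  have hder : ∀ ζ ∈ S, HasFDerivWithinAt (fun ζ => φ (exp ζ))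
      ((ContinuousLinearMap.toSpanSingleton ℂ (deriv φ (exp ζ) * exp ζ)).restrictScalars ℝ)
      S ζ := by
    intro ζ hζ
    have h1 : HasDerivAt (fun ζ => φ (exp ζ)) (deriv φ (exp ζ) * exp ζ) ζ :=
      (hφ.differentiableAt (isOpen_ball.mem_nhds (hmem ζ hζ))).hasDerivAt.comp ζ
        (Complex.hasDerivAt_exp ζ)
    exact (h1.hasFDerivAt.restrictScalars ℝ).hasFDerivWithinAt
  have hinjS : InjOn (fun ζ => φ (exp ζ)) S := by
    intro ζ₁ h₁ ζ₂ h₂ h12
    have h3 := hinj (hmem ζ₁ h₁) (hmem ζ₂ h₂) h12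
    obtain ⟨n, hn⟩ := Complex.exp_eq_exp_iff_exists_int.1 h3
    have h4 := hBI h₁.2
    have h5 := hBI h₂.2
    have h6 : ζ₁.im = ζ₂.im + n * (2 * Real.pi) := by
      have := congrArg Complex.im hn
      simpa using this
    have h7 : n = 0 := by
      have h8 : (n : ℝ) < 1 := by
        by_contra h
        nlinarith [h4.2, h5.1, not_lt.1 h]
      have h9 : (-1 : ℝ) < n := by
        by_contra h
        nlinarith [h4.1, h5.2, not_lt.1 h]
      have h8' : n < 1 := by exact_mod_cast h8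
      have h9' : -1 < n := by exact_mod_cast h9
      omega
    rw [hn, h7]
    simp
  have harea := lintegral_abs_det_fderiv_eq_addHaar_image (volume : Measure ℂ) hSm hder hinjS
  simp only [Pool.Agent.H713R2.det_mul_real] at harea
  have himg : (fun ζ => φ (exp ζ)) '' S ⊆ closedBall x (5 * h ^ (1 - ε)) := by
    rintro _ ⟨ζ, hζ, rfl⟩
    rw [mem_closedBall, dist_eq_norm]
    have h1 := length_le hφ hN (by linarith : ε ≤ 1 / 2) hζ.2.1 (r := 1 - h)
      (s := Real.exp ζ.re) (by linarith) (hre ζ hζ).1 (by linarith [(hre ζ hζ).2])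
    rw [sub_sub_cancel] at h1
    have h2 := hζ.2.2
    simp only [exp_eq_pt ζ]
    calc ‖φ (pt (Real.exp ζ.re) ζ.im) - x‖ = ‖(φ (pt (Real.exp ζ.re) ζ.im) -
          φ (pt (1 - h) ζ.im)) + (φ (pt (1 - h) ζ.im) - x)‖ := by rw [sub_add_sub_cancel]
      _ ≤ _ := norm_add_le _ _
      _ ≤ 2 * h ^ (1 - ε) + 3 * h ^ (1 - ε) := add_le_add h1 h2
      _ = 5 * h ^ (1 - ε) := by ring
  have hup : volume ((fun ζ => φ (exp ζ)) '' S) ≤ ENNReal.ofReal (25 * Real.pi * h ^ (2 - 2 * ε)) := by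
    refine (measure_mono himg).trans ?_
    rw [Complex.volume_closedBall, ← ENNReal.ofReal_pow (by positivity)]
    have h1 : (NNReal.pi : ENNReal) = ENNReal.ofReal Real.pi := by
      rw [ENNReal.ofReal, ← NNReal.coe_real_pi, Real.toNNReal_coe]
    rw [h1, ← ENNReal.ofReal_mul (by positivity)]
    apply ENNReal.ofReal_le_ofReal
    have h2 : h ^ (2 - 2 * ε) = (h ^ (1 - ε)) ^ 2 := by
      rw [← Real.rpow_natCast, ← Real.rpow_mul h0.le]
      congr 1; push_cast; ring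
    rw [h2]
    nlinarith
  set m : ℝ := (h / 2) ^ (2 * ε) / 4 with hm
  have hm0 : 0 < m := by positivity
  have hlow : ENNReal.ofReal m * volume S ≤ volume ((fun ζ => φ (exp ζ)) '' S) := by
    rw [← harea, ← setLIntegral_const]
    apply setLIntegral_mono_ae' hSm
    refine Eventually.of_forall fun ζ hζ => ?_
    apply ENNReal.ofReal_le_ofReal
    have h1 := hre ζ hζ
    have h2 := (hζ.2.1.2 (Real.exp ζ.re) ⟨by linarith, by linarith⟩).1
    rw [← exp_eq_pt] at h2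
    rw [abs_of_nonneg (by positivity), norm_mul, norm_exp, mul_pow, hm]
    have h3 : (h / 2) ^ ε ≤ ‖deriv φ (exp ζ)‖ := by
      refine le_trans ?_ h2
      exact Real.rpow_le_rpow (by positivity) (by linarith) hε.le
    have h4 : (h / 2) ^ (2 * ε) = ((h / 2) ^ ε) ^ 2 := by
      rw [← Real.rpow_natCast, ← Real.rpow_mul (by positivity)]
      congr 1; push_cast; ring
    rw [h4, div_eq_mul_inv]
    apply mul_le_mul (pow_le_pow_left₀ (by positivity) h3 2) _ (by norm_num) (by positivity)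
    have h5 : (1 / 2 : ℝ) ≤ Real.exp ζ.re := by linarith
    nlinarith
  have hfin := hlow.trans hup
  rw [hSv, ← mul_assoc, ← ENNReal.ofReal_mul hm0.le, ← ENNReal.ofReal_toReal hBfin,
    ← ENNReal.ofReal_mul (by nlinarith)] at hfin
  rw [← ENNReal.ofReal_toReal hBfin]
  rw [ENNReal.ofReal_le_ofReal_iff (by positivity)] at hfin
  apply ENNReal.ofReal_le_ofReal
  have hv0 : 0 ≤ (volume B).toReal := ENNReal.toReal_nonneg
  generalize (volume B).toReal = v at hfin hv0 ⊢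
  have h1 : m * (h / 2) * v ≤ 25 * Real.pi * h ^ (2 - 2 * ε) := by
    refine le_trans ?_ hfin
    apply mul_le_mul_of_nonneg_right _ hv0
    exact mul_le_mul_of_nonneg_left hab hm0.le
  have h2 : m * (h / 2) * v = v * h ^ (1 + 2 * ε) * ((1 / 2) ^ (2 * ε) / 8) := by
    rw [hm, Real.div_rpow h0.le (by norm_num), Real.rpow_add h0, Real.rpow_one,
      Real.div_rpow (by norm_num) (by norm_num), Real.one_rpow]
    field_simp
    ring
  have h3 : (1 / 2 : ℝ) ≤ (1 / 2) ^ (2 * ε) := by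
    have := Real.rpow_le_rpow_of_exponent_ge (x := (1 / 2 : ℝ)) (y := 1) (z := 2 * ε)
      (by norm_num) (by norm_num) (by linarith)
    rwa [Real.rpow_one] at this
  have h4 : h ^ (2 - 2 * ε) = h ^ (1 - 4 * ε) * h ^ (1 + 2 * ε) := by
    rw [← Real.rpow_add h0]; congr 1; ring
  have h5 : 0 < h ^ (1 + 2 * ε) := by positivity
  have h6 : v * h ^ (1 + 2 * ε) * (1 / 16) ≤ 25 * Real.pi * (h ^ (1 - 4 * ε) * h ^ (1 + 2 * ε)) := by
    rw [← h4]
    refine le_trans ?_ (h2 ▸ h1)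
    apply mul_le_mul_of_nonneg_left _ (by positivity)
    linarith
  have h7 : v * h ^ (1 + 2 * ε) ≤ (400 * Real.pi * h ^ (1 - 4 * ε)) * h ^ (1 + 2 * ε) := by
    nlinarith
  exact le_of_mul_le_mul_right h7 h5

end Pool.Agent.N673.Mak
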