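import Pool.Agent.N673.QC.MakB

/-! # Makarov's theorem: sets of Hausdorff dimension less than one are not seen by univalent
functions -/

set_option autoImplicit false

namespace Pool.Agent.N673.Mak

open Complex Metric Set Filter Topology MeasureTheory
open Pool.Agent.W677.Mar (pt lam bloch_exp norm_pt pt_periodic continuous_pt norm_pt_sub lam_pos)
open scoped NNReal ENNReal

variable {φ : ℂ → ℂ} {ε : ℝ} {N : ℕ}

theorem exists_cover {E : Set ℂ} {s : ℝ} (hs : 0 < s) (h : μH[s] E = 0) {δ η : ℝ} (hδ : 0 < δ)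
    (hη : 0 < η) : ∃ (t : ℕ → Set ℂ) (l : ℕ → ℝ), E ⊆ ⋃ n, t n ∧
      (∀ n, 0 < l n ∧ l n ≤ δ ∧ ∀ x ∈ t n, ∀ y ∈ t n, dist x y ≤ l n) ∧
      ∑' n, ENNReal.ofReal (l n ^ s) ≤ ENNReal.ofReal η := by
  rw [Measure.hausdorffMeasure_apply] at h
  have h1 := (ENNReal.iSup_eq_zero.1 h) (ENNReal.ofReal δ)
  have h2 := (ENNReal.iSup_eq_zero.1 h1) (ENNReal.ofReal_pos.2 hδ)
  have h3 : (⨅ (t : ℕ → Set ℂ) (_ : E ⊆ ⋃ n, t n) (_ : ∀ n, ediam (t n) ≤ ENNReal.ofReal δ),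
      ∑' n, ⨆ _ : (t n).Nonempty, ediam (t n) ^ s) < ENNReal.ofReal (η / 2) := by
    rw [h2]; exact ENNReal.ofReal_pos.2 (by linarith)
  simp only [iInf_lt_iff] at h3
  obtain ⟨t, ht1, ht2, ht3⟩ := h3
  have hne : ∀ n, ediam (t n) ≠ ⊤ := fun n => ne_top_of_le_ne_top ENNReal.ofReal_ne_top (ht2 n)
  have h4 : ∀ n, (⨆ _ : (t n).Nonempty, ediam (t n) ^ s) = ediam (t n) ^ s := by
    intro n
    rcases (t n).eq_empty_or_nonempty with h5 | h5
    · rw [h5]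
      simp [ENNReal.zero_rpow_of_pos hs]
    · simp [h5]
  simp only [h4] at ht3
  refine ⟨t, fun n => max (ediam (t n)).toReal (min δ ((η / 2 * (1 / 2) ^ (n + 1)) ^ (1 / s))),
    ht1, fun n => ⟨?_, ?_, ?_⟩, ?_⟩
  · exact lt_max_of_lt_right (lt_min hδ (by positivity))
  · exact max_le (ENNReal.toReal_le_of_le_ofReal hδ.le (ht2 n)) (min_le_left _ _)
  · intro x hx y hy
    refine le_max_of_le_left ?_
    have h5 := edist_le_ediam_of_mem hx hy
    rw [edist_dist] at h5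
    exact (ENNReal.ofReal_le_iff_le_toReal (hne n)).1 h5
  · have h5 : ∀ n, ENNReal.ofReal ((max (ediam (t n)).toReal
        (min δ ((η / 2 * (1 / 2) ^ (n + 1)) ^ (1 / s)))) ^ s) ≤
        ediam (t n) ^ s + ENNReal.ofReal (η / 2 * (1 / 2) ^ (n + 1)) := by
      intro n
      have h6 : (max (ediam (t n)).toReal
        (min δ ((η / 2 * (1 / 2) ^ (n + 1)) ^ (1 / s)))) ^ s ≤
          (ediam (t n)).toReal ^ s + η / 2 * (1 / 2) ^ (n + 1) := by
        rcases le_total (ediam (t n)).toReal (min δ ((η / 2 * (1 / 2) ^ (n + 1)) ^ (1 / s)))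
          with h7 | h7
        · rw [max_eq_right h7]
          have h8 : (min δ ((η / 2 * (1 / 2) ^ (n + 1)) ^ (1 / s))) ^ s ≤
              η / 2 * (1 / 2) ^ (n + 1) := by
            calc (min δ ((η / 2 * (1 / 2) ^ (n + 1)) ^ (1 / s))) ^ s ≤
                ((η / 2 * (1 / 2) ^ (n + 1)) ^ (1 / s)) ^ s :=
                  Real.rpow_le_rpow (by positivity) (min_le_right _ _) hs.le
              _ = η / 2 * (1 / 2) ^ (n + 1) := by
                  rw [← Real.rpow_mul (by positivity), one_div_mul_cancel hs.ne', Real.rpow_one]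
          have : 0 ≤ (ediam (t n)).toReal ^ s := by positivity
          linarith
        · rw [max_eq_left h7]
          have : 0 ≤ η / 2 * (1 / 2) ^ (n + 1) := by positivity
          linarith
      refine (ENNReal.ofReal_le_ofReal h6).trans ?_
      rw [ENNReal.ofReal_add (by positivity) (by positivity),
        ← ENNReal.ofReal_rpow_of_nonneg ENNReal.toReal_nonneg hs.le, ENNReal.ofReal_toReal (hne n)]
    refine (ENNReal.tsum_le_tsum h5).trans ?_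
    rw [ENNReal.tsum_add]
    have h6 : ∑' n : ℕ, ENNReal.ofReal (η / 2 * (1 / 2) ^ (n + 1)) = ENNReal.ofReal (η / 2) := by
      rw [← ENNReal.ofReal_tsum_of_nonneg (fun n => by positivity)]
      · congr 1
        rw [tsum_mul_left]
        have : ∑' n : ℕ, (1 / 2 : ℝ) ^ (n + 1) = 1 := by
          simp only [pow_succ]
          rw [tsum_mul_right, tsum_geometric_two]
          norm_num
        rw [this, mul_one]
      · exact ((summable_nat_add_iff 1).2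
          (summable_geometric_of_lt_one (by norm_num) (by norm_num : (1 / 2 : ℝ) < 1))).mul_left _
    rw [h6]
    refine (add_le_add_left ht3.le _).trans ?_
    rw [← ENNReal.ofReal_add (by linarith) (by linarith)]
    apply ENNReal.ofReal_le_ofReal
    linarith

/-- the angles in `G φ ε N` whose radial limits lie in a null set -/
theorem null_G (hφ : DifferentiableOn ℂ φ (ball 0 1)) (hinj : InjOn φ (ball 0 1)) (hN : 1 ≤ N)
    (hε : 0 < ε) (hε1 : ε ≤ 1 / 8) {E : Set ℂ} (hE : μH[1 - 4 * ε] E = 0) :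
    volume {θ | θ ∈ G φ ε N ∧ ∃ p ∈ E, Tendsto (fun r : ℝ => φ (pt r θ)) (𝓝[<] 1) (𝓝 p)} = 0 := by
  have hpi := Real.pi_pos
  have hh2 := half_pow_le hN
  refine le_antisymm (ENNReal.le_of_forall_pos_le_add fun η hη _ => ?_) zero_le
  rw [zero_add]
  obtain ⟨t, l, h1, h2, h3⟩ := exists_cover (s := 1 - 4 * ε) (by linarith) hE
    (δ := (1 / 2) ^ N) (η := η / (400 * Real.pi)) (by positivity) (by positivity)
  have hsub : {θ | θ ∈ G φ ε N ∧ ∃ p ∈ E, Tendsto (fun r : ℝ => φ (pt r θ)) (𝓝[<] 1) (𝓝 p)} ⊆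
      ⋃ n, {θ | θ ∈ G φ ε N ∧ ∃ p ∈ t n, Tendsto (fun r : ℝ => φ (pt r θ)) (𝓝[<] 1) (𝓝 p)} := by
    rintro θ ⟨hθ, p, hp, hp2⟩
    obtain ⟨n, hn⟩ := mem_iUnion.1 (h1 hp)
    exact mem_iUnion.2 ⟨n, hθ, p, hn, hp2⟩
  have hone : ∀ n, volume {θ | θ ∈ G φ ε N ∧ ∃ p ∈ t n,
      Tendsto (fun r : ℝ => φ (pt r θ)) (𝓝[<] 1) (𝓝 p)} ≤
      ENNReal.ofReal (400 * Real.pi) * ENNReal.ofReal (l n ^ (1 - 4 * ε)) := by
    intro n
    obtain ⟨hl0, hlδ, hl⟩ := h2 n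
    rcases (t n).eq_empty_or_nonempty with h5 | ⟨x, hx⟩
    · rw [h5]; simp
    rw [← ENNReal.ofReal_mul (by positivity)]
    refine (measure_mono ?_).trans (vol_le hφ hinj hN hε hε1 hl0 hlδ x)
    rintro θ ⟨hθ, p, hp, hp2⟩
    refine ⟨hθ, ?_⟩
    have h6 := dist_limit hφ hN (by linarith) hθ hp2 (r := 1 - l n) (by linarith) (by linarith)
    rw [sub_sub_cancel] at h6
    have h7 := hl p hp x hx
    rw [dist_eq_norm] at h7
    have h8 : l n ≤ l n ^ (1 - ε) := by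
      have := Real.rpow_le_rpow_of_exponent_ge hl0 (by linarith : l n ≤ 1)
        (by linarith : 1 - ε ≤ 1)
      rwa [Real.rpow_one] at this
    calc ‖φ (pt (1 - l n) θ) - x‖ = ‖(p - x) - (p - φ (pt (1 - l n) θ))‖ := by
          congr 1; ring
      _ ≤ _ := norm_sub_le _ _
      _ ≤ 3 * l n ^ (1 - ε) := by linarith
  refine (measure_mono hsub).trans ((measure_iUnion_le _).trans ?_)
  refine (ENNReal.tsum_le_tsum hone).trans ?_
  rw [ENNReal.tsum_mul_left]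
  refine (mul_le_mul_right h3 _).trans ?_
  rw [← ENNReal.ofReal_mul (by positivity)]
  have : 400 * Real.pi * (η / (400 * Real.pi)) = (η : ℝ) := by field_simp
  rw [this, ENNReal.ofReal_coe_nnreal]

theorem ae_G (hφ : DifferentiableOn ℂ φ (ball 0 1)) (hinj : InjOn φ (ball 0 1)) (hε : 0 < ε) :
    ∀ᵐ θ : ℝ ∂(volume.restrict (Ioc 0 (2 * Real.pi))), ∃ N : ℕ, 1 ≤ N ∧ θ ∈ G φ ε N := by
  filter_upwards [growth_Ioc hφ hinj, ae_restrict_mem measurableSet_Ioc] with θ h1 h2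
  obtain ⟨N, hN, h3⟩ := h1 ε hε
  exact ⟨N, hN, h2, h3⟩

theorem makarov_Ioc (hφ : DifferentiableOn ℂ φ (ball 0 1)) (hinj : InjOn φ (ball 0 1))
    {E : Set ℂ} (hE : dimH E < 1) : ∀ᵐ θ : ℝ ∂(volume.restrict (Ioc 0 (2 * Real.pi))),
      ∃ p : ℂ, p ∉ E ∧ Tendsto (fun r : ℝ => φ (pt r θ)) (𝓝[<] 1) (𝓝 p) := by
  obtain ⟨s, hs1, hs2⟩ := ENNReal.lt_iff_exists_nnreal_btwn.1 hE
  have hs3 : (s : ℝ) < 1 := by exact_mod_cast hs2
  obtain ⟨ε, hε⟩ : ∃ ε : ℝ, ε = (1 - s) / 8 := ⟨_, rfl⟩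
  have hε0 : 0 < ε := by rw [hε]; linarith
  have hε1 : ε ≤ 1 / 8 := by rw [hε]; linarith [s.2, NNReal.coe_nonneg s]
  have hE0 : μH[1 - 4 * ε] E = 0 := by
    have h0 : ((Real.toNNReal (1 - 4 * ε) : ℝ≥0) : ℝ) = 1 - 4 * ε :=
      Real.coe_toNNReal _ (by linarith)
    have h1 : ((s : ℝ≥0∞)) ≤ ((Real.toNNReal (1 - 4 * ε) : ℝ≥0) : ℝ≥0∞) := by
      rw [ENNReal.coe_le_coe, ← NNReal.coe_le_coe, h0, hε]
      linarith
    have h2 := hausdorffMeasure_of_dimH_lt (hs1.trans_le h1)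
    rwa [h0] at h2
  have h2 : ∀ N : ℕ, ∀ᵐ θ : ℝ ∂(volume.restrict (Ioc 0 (2 * Real.pi))), 1 ≤ N →
      ¬ (θ ∈ G φ ε N ∧ ∃ p ∈ E, Tendsto (fun r : ℝ => φ (pt r θ)) (𝓝[<] 1) (𝓝 p)) := by
    intro N
    by_cases hN : 1 ≤ N
    · have h3 := null_G hφ hinj hN hε0 hε1 hE0
      have h4 : ∀ᵐ θ : ℝ ∂volume, ¬ (θ ∈ G φ ε N ∧ ∃ p ∈ E,
          Tendsto (fun r : ℝ => φ (pt r θ)) (𝓝[<] 1) (𝓝 p)) := by
        rw [ae_iff]
        simpa using h3
      filter_upwards [ae_restrict_of_ae h4] with θ h5 _ using h5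
    · exact Eventually.of_forall fun θ h => absurd h hN
  filter_upwards [ae_all_iff.2 h2, ae_G hφ hinj hε0] with θ h3 h4
  obtain ⟨N, hN, hθ⟩ := h4
  obtain ⟨p, hp⟩ := exists_limit hφ hN (by linarith) hθ
  exact ⟨p, fun h5 => h3 N hN ⟨hθ, p, h5, hp⟩, hp⟩

theorem ae_of_Ioc {P : ℝ → Prop} (hP : ∀ θ, P (θ + 2 * Real.pi) ↔ P θ)
    (h : ∀ᵐ θ : ℝ ∂(volume.restrict (Ioc 0 (2 * Real.pi))), P θ) : ∀ᵐ θ : ℝ, P θ := by
  have hpi := Real.pi_pos
  have hP2 : ∀ (k : ℤ) (θ : ℝ), P (θ + k * (2 * Real.pi)) ↔ P θ := by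
    have h1 : Function.Periodic P (2 * Real.pi) := fun θ => propext (hP θ)
    intro k θ
    rw [h1.int_mul k θ]
  have h0 : volume ({θ | ¬ P θ} ∩ Ioc 0 (2 * Real.pi)) = 0 := by
    have := (ae_restrict_iff' measurableSet_Ioc).1 h
    rw [ae_iff] at this
    convert this using 2
    ext θ
    simp only [mem_inter_iff, mem_ofPred_eq]
    tauto
  rw [ae_iff]
  have hsub : {θ | ¬ P θ} ⊆ ⋃ k : ℤ, (fun θ : ℝ => θ + k * (2 * Real.pi)) ⁻¹'
      ({θ | ¬ P θ} ∩ Ioc 0 (2 * Real.pi)) := by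
    intro θ hθ
    obtain ⟨k, hk, _⟩ := existsUnique_add_zsmul_mem_Ioc (by positivity : 0 < 2 * Real.pi) θ 0
    rw [zero_add] at hk
    refine mem_iUnion.2 ⟨k, ?_, ?_⟩
    · show ¬ P (θ + k * (2 * Real.pi))
      rw [hP2]; exact hθ
    · show θ + k * (2 * Real.pi) ∈ Ioc 0 (2 * Real.pi)
      simpa using hk
  refine measure_mono_null hsub (measure_iUnion_null fun k => ?_)
  rw [measure_preimage_add_right]
  exact h0

/-- Makarov's theorem, weak form: for almost every angle the radial limit exists and avoids a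
given set of Hausdorff dimension less than one. -/
theorem makarov (hφ : DifferentiableOn ℂ φ (ball 0 1)) (hinj : InjOn φ (ball 0 1))
    {E : Set ℂ} (hE : dimH E < 1) : ∀ᵐ θ : ℝ,
      ∃ p : ℂ, p ∉ E ∧ Tendsto (fun r : ℝ => φ (pt r θ)) (𝓝[<] 1) (𝓝 p) := by
  refine ae_of_Ioc (fun θ => ?_) (makarov_Ioc hφ hinj hE)
  simp only [(pt_periodic _ θ)]

end Pool.Agent.N673.Mak
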